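import Mathlib

/-!
# Certificates of double coset enumerations: the checker

Codes: a pair `(k, x)` stands for the element `om k * e x` of a group.  All functions in this file
are evaluated by the kernel on packed natural numbers.
-/

set_option autoImplicit false

namespace Pool.Agent.Lib.MP_c2d01e_co.Dce

/-- forces the evaluation of `n` -/
noncomputable def frc (n : Nat) (f : Nat → Nat) : Nat :=
  Nat.rec (motive := fun _ => Nat) (f 0) (fun m _ => f (Nat.succ m)) n

/-- forces the evaluation of `n` -/
noncomputable def frb (n : Nat) (f : Nat → Bool) : Bool :=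
  Nat.rec (motive := fun _ => Bool) (f 0) (fun m _ => f (Nat.succ m)) n

/-- lazy conjunction -/
noncomputable def cnd (b t : Bool) : Bool := Bool.rec (motive := fun _ => Bool) false t b

theorem frc_eq (n : Nat) (f : Nat → Nat) : frc n f = f n := by cases n <;> rfl

theorem frb_eq (n : Nat) (f : Nat → Bool) : frb n f = f n := by cases n <;> rfl

theorem cnd_eq (b t : Bool) : cnd b t = (b && t) := by cases b <;> rfl

/-- entry `i` of row `k` (eight entries of 16 bits in every row) -/
noncomputable def getT (T k i : Nat) : Nat :=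
  Nat.land (Nat.shiftRight T (Nat.mul 16 (Nat.add (Nat.mul 8 k) i))) 65535

/-- follow the packed word `w` (3 bits for every letter) in the table `T` from `k` -/
noncomputable def fol (T fuel : Nat) : Nat → Nat → Nat :=
  Nat.rec (motive := fun _ => Nat → Nat → Nat) (fun _ k => k)
    (fun _ ih w k => Nat.rec (motive := fun _ => Nat) k
      (fun m _ => frc (getT T k (Nat.land (Nat.succ m) 7)) (ih (Nat.shiftRight (Nat.succ m) 3))) w)
    fuel

/-- letters of a packed word -/
def wl : Nat → Nat → List Nat
  | 0, _ => []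
  | n + 1, w => if w = 0 then [] else (w % 8) :: wl n (w / 8)

theorem fol_eq (T n w k : Nat) : fol T n w k = (wl n w).foldl (fun k i => getT T k i) k := by
  induction n generalizing w k with
  | zero => rfl
  | succ n ih =>
    cases w with
    | zero => simp [wl, fol]
    | succ m =>
      have h1 : fol T (n + 1) (m + 1) k = frc (getT T k (Nat.land (Nat.succ m) 7))
          (fol T n (Nat.shiftRight (Nat.succ m) 3)) := rfl
      have h2 : Nat.land (Nat.succ m) 7 = (m + 1) % 8 := Nat.and_two_pow_sub_one_eq_mod (m + 1) 3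
      have h3 : Nat.shiftRight (Nat.succ m) 3 = (m + 1) / 8 := Nat.shiftRight_eq_div_pow (m + 1) 3
      rw [h1, frc_eq, h2, h3, ih, wl, if_neg (by omega)]
      rfl

/-- the tables of the calculus -/
structure Data where
  /-- right multiplication on the `k` codes -/
  TW : Nat
  /-- action on the `x` codes -/
  AX : Nat
  /-- packed words, 80 bits each -/
  WD : Nat
  /-- inverses, 16 bits each -/
  IV : Nat
  /-- number of `k` codes -/
  nW : Nat
  /-- number of `x` codes -/
  nX : Nat
  /-- addition of `x` codes -/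
  add : Nat → Nat → Nat
  /-- known stabiliser elements of the first point -/
  chk0 : Nat → Nat → Bool
  /-- half the order of the polygon relation -/
  pol : Nat
  /-- contents of the facts, 64 bits each -/
  CT : Nat
  /-- definitions, 32 bits each: `i + 65536 y` -/
  DT : Nat

variable (D : Data)

noncomputable def word (k : Nat) : Nat :=
  Nat.land (Nat.shiftRight D.WD (Nat.mul 80 k)) 1208925819614629174706175

noncomputable def inv (k : Nat) : Nat :=
  Nat.land (Nat.shiftRight D.IV (Nat.mul 16 k)) 65535

noncomputable def mulK (k l : Nat) : Nat := fol D.TW 24 (word D l) k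

noncomputable def actX (x l : Nat) : Nat := fol D.AX 24 (word D l) x

noncomputable def con (n : Nat) : Nat :=
  Nat.land (Nat.shiftRight D.CT (Nat.mul 64 n)) 18446744073709551615

noncomputable def cT (c : Nat) : Nat := Nat.land c 1
noncomputable def cI (c : Nat) : Nat := Nat.land (Nat.shiftRight c 1) 8191
noncomputable def cY (c : Nat) : Nat := Nat.land (Nat.shiftRight c 14) 1023
noncomputable def cJ (c : Nat) : Nat := Nat.land (Nat.shiftRight c 24) 8191
noncomputable def cK (c : Nat) : Nat := Nat.land (Nat.shiftRight c 37) 2047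
noncomputable def cX (c : Nat) : Nat := Nat.land (Nat.shiftRight c 48) 1023

/-- read a field of 20 bits -/
noncomputable def rd (s : Nat) (K : Nat → Nat → Bool) : Bool :=
  frb (Nat.land s 1048575) fun f => frb (Nat.shiftRight s 20) fun r => K f r

/-- follow stabiliser facts from the coset `y` of orbit `i`, then use the edge fact `m` -/
noncomputable def walk (n i m len : Nat) :
    Nat → Nat → (Nat → Nat → Nat → Nat → Bool) → Bool :=
  Nat.rec (motive := fun _ => Nat → Nat → (Nat → Nat → Nat → Nat → Bool) → Bool)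
    (fun s y K => frb (con D m) fun c => cnd (Nat.beq (cT c) 0) (cnd (Nat.beq (cI c) i)
      (cnd (Nat.beq (cY c) y) (frb (cJ c) fun j => frb (cK c) fun k => frb (cX c) fun x =>
        K j k x s))))
    (fun _ ih s y K => rd s fun t s1 => cnd (Nat.ble (Nat.succ t) n) (frb (con D t) fun c =>
      cnd (Nat.beq (cT c) 1) (cnd (Nat.beq (cI c) i) (frb (cK c) fun ks =>
        frb (actX D (D.add (cX c) y) (inv D ks)) fun y' => ih s1 y' fun j k x s2 =>
          frb (mulK D k ks) fun k' => frb (actX D x ks) fun x' => K j k' x' s2)))) len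

/-- the image of the point `(i, k, x)` under the extra involution -/
noncomputable def look (n i k x s : Nat) (K : Nat → Nat → Nat → Nat → Bool) : Bool :=
  rd s fun m s1 => cnd (Nat.ble (Nat.succ m) n) (rd s1 fun len s2 =>
    frb (actX D x (inv D k)) fun y => walk D n i m len s2 y fun j k' x' s3 =>
      frb (mulK D k' k) fun k2 => frb (actX D x' k) fun x2 => K j k2 x2 s3)

/-- walk around the polygon, `t` double steps -/
noncomputable def poly (n t : Nat) :
    Nat → Nat → Nat → Nat → (Nat → Nat → Nat → Nat → Bool) → Bool :=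
  Nat.rec (motive := fun _ => Nat → Nat → Nat → Nat → (Nat → Nat → Nat → Nat → Bool) → Bool)
    (fun i k x s K => K i k x s)
    (fun _ ih i k x s K => look D n i k x s fun j k' x' s' => frb (getT D.TW k' 1) fun k2 =>
      frb (getT D.AX x' 1) fun x2 => ih j k2 x2 s' K) t

/-- read a point -/
noncomputable def rdP (s : Nat) (K : Nat → Nat → Nat → Nat → Bool) : Bool :=
  rd s fun a s1 => rd s1 fun k s2 => rd s2 fun x s3 =>
    cnd (Nat.ble (Nat.succ k) D.nW) (cnd (Nat.ble (Nat.succ x) D.nX) (K a k x s3))

/-- `(k, x) * (k', x') = (k2, x2)` -/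
noncomputable def eqP (k x k' x' k2 x2 : Nat) : Bool :=
  cnd (Nat.beq (mulK D k k') k2) (Nat.beq (D.add (actX D x k') x') x2)

noncomputable def line0 (c : Nat) : Bool :=
  cnd (Nat.beq (cT c) 1) (cnd (Nat.beq (cI c) 0) (D.chk0 (cK c) (cX c)))

noncomputable def line1 (c : Nat) : Bool := Nat.beq c 0

noncomputable def line2 (c : Nat) : Bool :=
  cnd (Nat.beq (cT c) 0) (cnd (Nat.beq (cK c) 0) (cnd (Nat.beq (cX c) 0)
    (cnd (Nat.ble (Nat.succ (cI c)) (cJ c)) (Nat.beq
      (Nat.land (Nat.shiftRight D.DT (Nat.mul 32 (cJ c))) 4294967295)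
      (Nat.add (cI c) (Nat.mul 65536 (cY c)))))))

noncomputable def line3 (n c : Nat) (s : Nat) (K : Nat → Bool) : Bool :=
  rd s fun m s1 => cnd (Nat.ble (Nat.succ m) n) (frb (con D m) fun c' =>
    cnd (Nat.beq (cT c) 0) (cnd (Nat.beq (cT c') 0) (cnd (Nat.beq (cI c) (cJ c'))
      (cnd (Nat.beq (cJ c) (cI c')) (frb (cK c') fun k' =>
        cnd (Nat.beq (actX D (cY c) k') (cX c')) (cnd (Nat.beq (mulK D (cK c) k') 0)
          (cnd (Nat.beq (actX D (cX c) k') (cY c')) (K s1))))))))

noncomputable def line4 (n c : Nat) (s : Nat) (K : Nat → Bool) : Bool :=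
  rdP D s fun a k x s1 => poly D n (Nat.pred D.pol) a k x s1 fun b kb xb s2 =>
    cnd (Nat.beq (cT c) 0) (cnd (Nat.beq (cI c) b) (cnd (Nat.beq (cY c) (actX D xb (inv D kb)))
      (cnd (Nat.beq (cJ c) a) (cnd (Nat.beq (getT D.TW (mulK D (cK c) kb) 1) k)
        (cnd (Nat.beq (getT D.AX (actX D (cX c) kb) 1) x) (K s2))))))

noncomputable def line5 (n c : Nat) (s : Nat) (K : Nat → Bool) : Bool :=
  rdP D s fun a k x s1 => poly D n D.pol a k x s1 fun b kb xb s2 =>
    cnd (Nat.beq (cT c) 1) (cnd (Nat.beq (cI c) a) (cnd (Nat.beq b a)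
      (cnd (eqP D (cK c) (cX c) k x kb xb) (K s2))))

noncomputable def line6 (n c : Nat) (s : Nat) (K : Nat → Bool) : Bool :=
  rdP D s fun a k x s1 => look D n a k x s1 fun j1 k1 x1 s2 =>
    look D n a k x s2 fun j2 k2 x2 s3 =>
      cnd (Nat.beq (cT c) 1) (cnd (Nat.beq (cI c) j1) (cnd (Nat.beq j1 j2)
        (cnd (eqP D (cK c) (cX c) k2 x2 k1 x1) (K s3))))

noncomputable def line7 (n c : Nat) (s : Nat) (K : Nat → Bool) : Bool :=
  rd s fun m s1 => cnd (Nat.ble (Nat.succ m) n) (frb (con D m) fun c' =>
    cnd (Nat.beq (cT c) 1) (cnd (Nat.beq (cT c') 1) (cnd (Nat.beq (cI c) (cI c'))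
      (cnd (eqP D (cK c) (cX c) (cK c') (cX c') 0 0) (K s1)))))

/-- check fact `n` -/
noncomputable def line (n : Nat) (s : Nat) (K : Nat → Bool) : Bool :=
  rd s fun rule s1 => frb (con D n) fun c =>
    cnd (Nat.ble (Nat.succ (cY c)) D.nX) (cnd (Nat.ble (Nat.succ (cK c)) D.nW)
      (cnd (Nat.ble (Nat.succ (cX c)) D.nX)
    (Nat.rec (motive := fun _ => Bool) (cnd (line0 D c) (K s1)) (fun rule _ =>
      Nat.rec (motive := fun _ => Bool) (cnd (line1 c) (K s1)) (fun rule _ =>
        Nat.rec (motive := fun _ => Bool) (cnd (line2 D c) (K s1)) (fun rule _ =>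
          Nat.rec (motive := fun _ => Bool) (line3 D n c s1 K) (fun rule _ =>
            Nat.rec (motive := fun _ => Bool) (line4 D n c s1 K) (fun rule _ =>
              Nat.rec (motive := fun _ => Bool) (line5 D n c s1 K) (fun rule _ =>
                Nat.rec (motive := fun _ => Bool) (line6 D n c s1 K) (fun _ _ =>
                  line7 D n c s1 K) rule) rule) rule) rule) rule) rule) rule)))

/-- check the facts `n, …, n + t - 1` -/
noncomputable def run (t : Nat) : Nat → Nat → Bool :=
  Nat.rec (motive := fun _ => Nat → Nat → Bool) (fun _ _ => true)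
    (fun _ ih n s => line D n s fun s' => ih (Nat.succ n) s') t

/-- closure of orbit `i`: the covered set `v` grows by `cnt` entries -/
noncomputable def clo (N nO i cnt : Nat) : Nat → Nat → (Nat → Bool) → Bool :=
  Nat.rec (motive := fun _ => Nat → Nat → (Nat → Bool) → Bool)
    (fun s v K => cnd (Nat.beq v (Nat.sub (Nat.pow 2 D.nX) 1)) (K s))
    (fun _ ih s v K => rd s fun y s1 => rd s1 fun t s2 =>
        cnd (Nat.ble (Nat.succ t) N) (frb (con D t) fun c => cnd (Nat.beq (cI c) i)
          (Nat.rec (motive := fun _ => Bool)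
            (cnd (Nat.beq (cY c) y) (cnd (Nat.ble (Nat.succ (cJ c)) nO)
              (frb (Nat.lor v (Nat.shiftLeft 1 y)) fun v' => ih s2 v' K)))
            (fun _ _ => cnd (Nat.ble (Nat.succ y) D.nX) (cnd (Nat.beq 1 (Nat.land 1
              (Nat.shiftRight v (actX D (D.add (cX c) y) (inv D (cK c))))))
              (frb (Nat.lor v (Nat.shiftLeft 1 y)) fun v' => ih s2 v' K)))
            (cT c)))) cnt

/-- closure of the orbits `i, …, i + u - 1` -/
noncomputable def cloAll (N nO u : Nat) : Nat → Nat → Bool :=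
  Nat.rec (motive := fun _ => Nat → Nat → Bool) (fun _ _ => true)
    (fun _ ih i s => clo D N nO i D.nX s 0 fun s' => ih (Nat.succ i) s') u

end Pool.Agent.Lib.MP_c2d01e_co.Dce
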