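import Mathlib

/-!
# Dietzmann's lemma for involutions, and a finiteness criterion
-/

set_option autoImplicit false

namespace Pool.Agent.Lib.MP_c2d01e_co.Dce

variable {G : Type*} [Group G]

theorem prod_conj {x : G} (hx : x * x = 1) (b : List G) :
    (b.map fun y => x * y * x).prod = x * b.prod * x := by
  induction b with
  | nil => simp [hx]
  | cons a b ih =>
    rw [List.map_cons, List.prod_cons, ih, List.prod_cons]
    calc x * a * x * (x * b.prod * x) = x * a * (x * x) * b.prod * x := by group
      _ = _ := by rw [hx]; group

theorem nodup_word {S : Set G} (hinv : ∀ x ∈ S, x * x = 1)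
    (hconj : ∀ x ∈ S, ∀ y ∈ S, x * y * x ∈ S) (n : ℕ) :
    ∀ l : List G, l.length ≤ n → (∀ x ∈ l, x ∈ S) →
      ∃ l' : List G, l'.Nodup ∧ (∀ x ∈ l', x ∈ S) ∧ l'.prod = l.prod ∧ l'.length ≤ l.length := by
  induction n with
  | zero =>
    intro l hl _
    have : l = [] := List.length_eq_zero_iff.1 (by omega)
    subst this
    exact ⟨[], by simp⟩
  | succ n ih =>
    intro l hl hS
    cases l with
    | nil => exact ⟨[], by simp⟩
    | cons x t =>
      have hx := hS x (by simp)
      obtain ⟨t', h1, h2, h3, h4⟩ := ih t (by simpa using hl) (fun y hy => hS y (by simp [hy]))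
      by_cases hxt : x ∈ t'
      · obtain ⟨b, c, rfl⟩ := List.append_of_mem hxt
        have hlen : (b.map (fun y => x * y * x) ++ c).length + 1 = (b ++ x :: c).length := by
          simp; omega
        have hS' : ∀ y ∈ b.map (fun y => x * y * x) ++ c, y ∈ S := by
          intro y hy
          rcases List.mem_append.1 hy with hy | hy
          · obtain ⟨z, hz, rfl⟩ := List.mem_map.1 hy
            exact hconj x hx z (h2 z (by simp [hz]))
          · exact h2 y (by simp [hy])
        obtain ⟨l', g1, g2, g3, g4⟩ := ih (b.map (fun y => x * y * x) ++ c)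
          (by simp only [List.length_cons] at hl; omega) hS'
        refine ⟨l', g1, g2, ?_, by simp only [List.length_cons]; omega⟩
        rw [g3, List.prod_append, prod_conj (hinv x hx), List.prod_cons, ← h3, List.prod_append,
          List.prod_cons]
        group
      · refine ⟨x :: t', List.nodup_cons.2 ⟨hxt, h1⟩, ?_, by rw [List.prod_cons, h3, List.prod_cons],
          by simpa using h4⟩
        intro y hy
        rcases List.mem_cons.1 hy with rfl | hy
        · exact hx
        · exact h2 y hy

/-- **Dietzmann's lemma** for involutions: a finite set of involutions which is closed under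
conjugation by its elements generates a finite subgroup. -/
theorem closure_finite {S : Set G} (hS : S.Finite) (hinv : ∀ x ∈ S, x * x = 1)
    (hconj : ∀ x ∈ S, ∀ y ∈ S, x * y * x ∈ S) : (Subgroup.closure S : Set G).Finite := by
  have := hS.to_subtype
  have := Fintype.ofFinite S
  refine ((List.finite_length_le S (Fintype.card S)).image
    (fun l : List S => (l.map Subtype.val).prod)).subset ?_
  intro x hx
  have hx' : x ∈ Submonoid.closure (S ∪ S⁻¹) := by
    rw [← Subgroup.closure_toSubmonoid]
    exact hx
  obtain ⟨l, h1, rfl⟩ := Submonoid.exists_list_of_mem_closure hx'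
  have h2 : ∀ y ∈ l, y ∈ S := by
    intro y hy
    rcases h1 y hy with h | h
    · exact h
    · have h3 := hinv _ h
      have h4 : y⁻¹ = y := by
        have := eq_inv_of_mul_eq_one_left h3
        rwa [inv_inv] at this
      have h : y⁻¹ ∈ S := h
      rwa [h4] at h
  obtain ⟨l', g1, g2, g3, -⟩ := nodup_word hinv hconj _ l le_rfl h2
  lift l' to List S using g2
  refine ⟨l', ?_, g3⟩
  exact List.Nodup.length_le_card (List.Nodup.of_map _ g1)

/-- A finite set containing `1` and closed under right multiplication by generators is everything. -/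
theorem finite_of_closed {A T : Set G} (hA : Subgroup.closure A = ⊤)
    (hA2 : ∀ a ∈ A, a * a = 1) (hT : T.Finite) (h1 : (1 : G) ∈ T)
    (h : ∀ t ∈ T, ∀ a ∈ A, t * a ∈ T) : Finite G := by
  have key : ∀ g : G, g ∈ T := by
    intro g
    have hg : g ∈ Subgroup.closure A := by rw [hA]; trivial
    induction hg using Subgroup.closure_induction_right with
    | one => exact h1
    | mul_right x _ y hy ih => exact h x ih y hy
    | mul_inv_cancel x _ y hy ih =>
      rw [inv_eq_of_mul_eq_one_left (hA2 y hy)]
      exact h x ih y hy
  exact Set.finite_univ_iff.1 (hT.subset fun g _ => key g)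

end Pool.Agent.Lib.MP_c2d01e_co.Dce
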