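import Pool.Agent.Lib.MP_c2d01e_co.Dce.Lines
import Pool.Agent.Lib.MP_c2d01e_co.Dce.Dietzmann

/-!
# Certificates of double coset enumerations: closure and finiteness
-/

set_option autoImplicit false

namespace Pool.Agent.Lib.MP_c2d01e_co.Dce

variable {D : Data} {G : Type*} [Group G]

namespace Sem

variable (S : Sem D G)

/-- the image of the point `(i, 1, y)` is known -/
def Cov (nO i y : ℕ) : Prop :=
  ∃ j k x, j < nO ∧ k < D.nW ∧ x < D.nX ∧ S.s * S.V S.dd i 0 y * S.s = S.V S.dd j k x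

variable {S}

theorem testBit_of {v y : ℕ} (h : Nat.beq 1 (Nat.land 1 (Nat.shiftRight v y)) = true) :
    v.testBit y = true := by
  rw [Nat.beq_eq] at h
  have h' : 1 &&& (v >>> y) = 1 := h.symm
  rw [Nat.testBit, h']
  rfl

theorem testBit_or_one (v y z : ℕ) (h : (Nat.lor v (Nat.shiftLeft 1 y)).testBit z = true) :
    v.testBit z = true ∨ z = y := by
  have h' : (v ||| (1 <<< y)).testBit z = true := h
  rw [Nat.testBit_or, Nat.testBit_shiftLeft, Bool.or_eq_true, Bool.and_eq_true] at h'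
  rcases h' with h' | ⟨h1, h2⟩
  · exact Or.inl h'
  · right
    have h1 : y ≤ z := by simpa using h1
    have := Nat.testBit_one_eq_true_iff_self_eq_zero.1 h2
    omega

theorem clo_sound {N nO i : ℕ} (hH : ∀ m < N, HoldsC S S.dd (con D m)) (cnt : ℕ) :
    ∀ (s v : ℕ) (K : ℕ → Bool), (∀ y < D.nX, v.testBit y = true → S.Cov nO i y) →
      clo D N nO i cnt s v K = true → (∀ y < D.nX, S.Cov nO i y) ∧ ∃ s', K s' = true := by
  induction cnt with
  | zero =>
    intro s v K hv h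
    have h' : cnd (Nat.beq v (Nat.sub (Nat.pow 2 D.nX) 1)) (K s) = true := h
    rw [cnd_true, Nat.beq_eq] at h'
    refine ⟨fun y hy => hv y hy ?_, _, h'.2⟩
    have : v = 2 ^ D.nX - 1 := h'.1
    rw [this, Nat.testBit_two_pow_sub_one]
    simpa using hy
  | succ cnt ih =>
    intro s v K hv h
    have h' : (rd s fun y s1 => rd s1 fun t s2 =>
        cnd (Nat.ble (Nat.succ t) N) (frb (con D t) fun c => cnd (Nat.beq (cI c) i)
          (Nat.rec (motive := fun _ => Bool)
            (cnd (Nat.beq (cY c) y) (cnd (Nat.ble (Nat.succ (cJ c)) nO)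
              (frb (Nat.lor v (Nat.shiftLeft 1 y)) fun v' => clo D N nO i cnt s2 v' K)))
            (fun _ _ => cnd (Nat.ble (Nat.succ y) D.nX) (cnd (Nat.beq 1 (Nat.land 1
              (Nat.shiftRight v (actX D (D.add (cX c) y) (inv D (cK c))))))
              (frb (Nat.lor v (Nat.shiftLeft 1 y)) fun v' => clo D N nO i cnt s2 v' K)))
            (cT c)))) = true := h
    rw [rd_eq, rd_eq] at h'
    generalize Nat.land s 1048575 = y at h'
    generalize Nat.shiftRight s 20 = s1 at h'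
    generalize Nat.land s1 1048575 = t at h'
    generalize Nat.shiftRight s1 20 = s2 at h'
    rw [cnd_true, frb_eq, cnd_true, Nat.ble_eq, Nat.succ_le_iff, Nat.beq_eq] at h'
    obtain ⟨ht, hi, h'⟩ := h'
    obtain ⟨g1, g2, g3, g4, g5⟩ := hH t ht
    generalize con D t = c at *
    rcases hc : cT c with _ | m
    · rw [hc] at h'
      replace h' : cnd (Nat.beq (cY c) y) (cnd (Nat.ble (Nat.succ (cJ c)) nO)
        (frb (Nat.lor v (Nat.shiftLeft 1 y)) fun v' => clo D N nO i cnt s2 v' K)) = true := h'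
      rw [cnd_true, cnd_true, frb_eq, Nat.beq_eq, Nat.ble_eq, Nat.succ_le_iff] at h'
      obtain ⟨e1, e2, e3⟩ := h'
      refine ih _ _ _ ?_ e3
      intro z hz hb
      rcases testBit_or_one _ _ _ hb with hb | rfl
      · exact hv z hz hb
      · refine ⟨_, _, _, e2, g2, g3, ?_⟩
        rw [← e1, ← hi]
        exact g5 hc
    · have hc1 : cT c = 1 := by
        have : cT c ≤ 1 := Nat.and_le_right (n := c) (m := 1)
        omega
      have g6 := g4 hc1
      rw [hc] at h'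
      replace h' : cnd (Nat.ble (Nat.succ y) D.nX) (cnd (Nat.beq 1 (Nat.land 1
        (Nat.shiftRight v (actX D (D.add (cX c) y) (inv D (cK c))))))
        (frb (Nat.lor v (Nat.shiftLeft 1 y)) fun v' => clo D N nO i cnt s2 v' K)) = true := h'
      rw [cnd_true, cnd_true, frb_eq, Nat.ble_eq, Nat.succ_le_iff] at h'
      obtain ⟨e1, e2, e3⟩ := h'
      refine ih _ _ _ ?_ e3
      intro z hz hb
      rcases testBit_or_one _ _ _ hb with hb | rfl
      · exact hv z hz hb
      · have hy' := (S.actX_spec (S.add_lt _ _ g3 e1) (S.inv_lt _ g2)).1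
        obtain ⟨j, k, x, hj, hk, hx, h9⟩ := hv _ hy' (testBit_of e2)
        refine ⟨j, _, _, hj, (S.mulK_spec hk g2).1, (S.actX_spec hx g2).1, ?_⟩
        rw [hi] at g6
        rw [V_om hk hx g2, S_act g2 g3 e1 g6, V_conj_s g2 h9]

theorem cloAll_sound {N nO : ℕ} (hH : ∀ m < N, HoldsC S S.dd (con D m)) (u : ℕ) :
    ∀ (i s : ℕ), cloAll D N nO u i s = true → ∀ j, i ≤ j → j < i + u → ∀ y < D.nX, S.Cov nO j y := by
  induction u with
  | zero => intro i s _ j h1 h2; omega
  | succ u ih =>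
    intro i s h j h1 h2 y hy
    have h' : (clo D N nO i D.nX s 0 fun s' => cloAll D N nO u (Nat.succ i) s') = true := h
    obtain ⟨h3, s', h4⟩ := clo_sound hH _ _ _ _ (by simp) h'
    rcases Nat.eq_or_lt_of_le h1 with rfl | h5
    · exact h3 y hy
    · exact ih (i + 1) s' h4 j h5 (by omega) y hy

theorem V_r {i k x g : ℕ} {d : ℕ → G} (hk : k < D.nW) (hx : x < D.nX) (h1 : 2 ≤ g) (h2 : g ≤ 5) :
    S.V d i (getT D.TW k g) (getT D.AX x g) = (S.r g)⁻¹ * S.V d i k x * S.r g := by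
  rw [V, V, ← (S.om_mul k hk g h1 h2).2, mul_assoc (S.om k) (S.r g), ← (S.e_mul x hx g h1 h2).2]
  group

/-- the class is finite -/
theorem class_finite {nO : ℕ} (h0 : 0 < nO) (hC : ∀ i < nO, ∀ y < D.nX, S.Cov nO i y) :
    ∃ T : Set G, T.Finite ∧ S.c ∈ T ∧ (∀ g ∈ T, S.s * g * S.s ∈ T) ∧
      ∀ i, 1 ≤ i → i ≤ 5 → ∀ g ∈ T, (S.r i)⁻¹ * g * S.r i ∈ T := by
  refine ⟨(fun p : ℕ × ℕ × ℕ => S.V S.dd p.1 p.2.1 p.2.2) ''
    (Set.Iio nO ×ˢ (Set.Iio D.nW ×ˢ Set.Iio D.nX)), ?_, ?_, ?_, ?_⟩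
  · exact (Set.Finite.prod (Set.finite_Iio _) (Set.Finite.prod (Set.finite_Iio _)
      (Set.finite_Iio _))).image _
  · refine ⟨(0, 0, 0), ⟨h0, S.nW_pos, S.nX_pos⟩, ?_⟩
    simp only
    rw [V_zero, dd_zero]
  · rintro _ ⟨⟨i, k, x⟩, ⟨hi, hk, hx⟩, rfl⟩
    have hi : i < nO := hi
    have hk : k < D.nW := hk
    have hx : x < D.nX := hx
    obtain ⟨j, k', x', hj, hk', hx', h⟩ := hC i hi _ (S.actX_spec hx (S.inv_lt k hk)).1
    refine ⟨(j, mulK D k' k, actX D x' k), ⟨hj, (S.mulK_spec hk' hk).1,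
      (S.actX_spec hx' hk).1⟩, ?_⟩
    simp only
    rw [V_om hk' hx' hk, V_y hk hx, V_conj_s hk h]
  · rintro g h1 h2 _ ⟨⟨i, k, x⟩, ⟨hi, hk, hx⟩, rfl⟩
    have hk : k < D.nW := hk
    have hx : x < D.nX := hx
    rcases Nat.eq_or_lt_of_le h1 with rfl | h3
    · exact ⟨(i, getT D.TW k 1, getT D.AX x 1), ⟨hi, (S.om_one k hk).1, (S.e_one x hx).1⟩,
        V_r1 hk hx⟩
    · exact ⟨(i, getT D.TW k g, getT D.AX x g), ⟨hi, (S.om_mul k hk g h3 h2).1,
        (S.e_mul x hx g h3 h2).1⟩, V_r hk hx h3 h2⟩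

end Sem

/-- A finite set closed under conjugation by generators is normal; if it consists of involutions
it generates a finite normal subgroup. -/
theorem closure_normal_finite {T A : Set G} (hA : Subgroup.closure A = ⊤)
    (hA2 : ∀ a ∈ A, a * a = 1) (hT : T.Finite) (h : ∀ a ∈ A, ∀ g ∈ T, a * g * a ∈ T)
    {c : G} (hc : c ∈ T) (hc2 : c * c = 1) :
    ∃ H : Subgroup G, (H : Set G).Finite ∧ H.Normal ∧ c ∈ H := by
  have hconj : ∀ g : G, ∀ t ∈ T, g⁻¹ * t * g ∈ T := by
    intro g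
    have hg : g ∈ Subgroup.closure A := by rw [hA]; trivial
    induction hg using Subgroup.closure_induction_right with
    | one => intro t ht; simpa using ht
    | mul_right x _ y hy ih =>
      intro t ht
      have := h y hy _ (ih t ht)
      rwa [show y * (x⁻¹ * t * x) * y = (x * y)⁻¹ * t * (x * y) by
        rw [mul_inv_rev, inv_eq_of_mul_eq_one_left (hA2 y hy)]; group] at this
    | mul_inv_cancel x _ y hy ih =>
      intro t ht
      have h5 : y⁻¹ = y := inv_eq_of_mul_eq_one_left (hA2 y hy)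
      have := h y hy _ (ih t ht)
      rwa [show y * (x⁻¹ * t * x) * y = (x * y⁻¹)⁻¹ * t * (x * y⁻¹) by
        rw [mul_inv_rev, inv_inv, h5]; group] at this
  set T' : Set G := {g ∈ T | g * g = 1} with hT'
  have h1 : T'.Finite := hT.subset fun g hg => hg.1
  have h2 : ∀ g : G, ∀ t ∈ T', g⁻¹ * t * g ∈ T' := by
    rintro g t ⟨ht1, ht2⟩
    refine ⟨hconj g t ht1, ?_⟩
    calc g⁻¹ * t * g * (g⁻¹ * t * g) = g⁻¹ * (t * t) * g := by group
      _ = 1 := by rw [ht2]; group
  refine ⟨Subgroup.closure T', closure_finite h1 (fun x hx => hx.2) ?_, ?_, ?_⟩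
  · intro x hx y hy
    have := h2 x y hy
    rwa [inv_eq_of_mul_eq_one_left hx.2] at this
  · refine ⟨fun n hn g => ?_⟩
    induction hn using Subgroup.closure_induction with
    | mem x hx =>
      have := h2 g⁻¹ x hx
      rw [inv_inv] at this
      exact Subgroup.subset_closure this
    | one => simp
    | mul x y _ _ ihx ihy =>
      have : g * (x * y) * g⁻¹ = (g * x * g⁻¹) * (g * y * g⁻¹) := by group
      rw [this]
      exact mul_mem ihx ihy
    | inv x _ ih =>
      have : g * x⁻¹ * g⁻¹ = (g * x * g⁻¹)⁻¹ := by group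
      rw [this]
      exact inv_mem ih
  · exact Subgroup.subset_closure ⟨hc, hc2⟩

end Pool.Agent.Lib.MP_c2d01e_co.Dce
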