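import Pool.Agent.Lib.MP_c2d01e_co.Dce.Core

/-!
# Coset enumeration certificates with labels

`T` : packed table (`getT T x g` = number of the coset `x` times generator `g`), `RK` : ranks,
`J` : justifications (`0` = definition, `1` = reversal, `i + 2` = relator `i`).
`rel i` is a list of letters with trivial product; the edge `(x, g)` is deduced by walking from
`T x g` along all letters but the last one to `x`; the last letter is `g`.
-/

set_option autoImplicit false

namespace Pool.Agent.Lib.MP_c2d01e_co.Dce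

/-- walk from `k`; all edges but the last one have rank `< e` -/
noncomputable def wk (T RK e x g : ℕ) : List ℕ → ℕ → Bool
  | [], _ => false
  | h :: t, k =>
    match t with
    | [] => Nat.beq h g && Nat.beq k x
    | _ :: _ => Nat.ble (Nat.succ (getT RK k h)) e && wk T RK e x g t (getT T k h)

/-- check of the edge `(x, g)` -/
noncomputable def chkE (T RK J n : ℕ) (rel : ℕ → List ℕ) (x g : ℕ) : Bool :=
  Nat.ble (Nat.succ (getT T x g)) n &&
  (match getT J x g with
  | 0 => true
  | 1 => Nat.beq (getT T (getT T x g) g) x &&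
      Nat.ble (Nat.succ (getT RK (getT T x g) g)) (getT RK x g)
  | i + 2 => wk T RK (getT RK x g) x g (rel i) (getT T x g))

/-- letters allowed in the relators -/
def okRel (a : ℕ) (l : List ℕ) : Bool := l.all fun h => Nat.ble a h && Nat.ble h 5

variable {G : Type*} [Group G]

theorem wk_sound {T RK J n a : ℕ} {r u E : ℕ → G}
    (hT : ∀ x < n, ∀ g, a ≤ g → g ≤ 5 → getT T x g < n) (e x g : ℕ)
    (IH : ∀ k < n, ∀ h, a ≤ h → h ≤ 5 → getT RK k h < e → E k * r h = u h * E (getT T k h))
    (l : List ℕ) (hl : okRel a l = true) : ∀ k, k < n → wk T RK e x g l k = true →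
      ∃ l', l = l' ++ [g] ∧ E k * (l'.map r).prod = (l'.map u).prod * E x := by
  have _ := J
  induction l with
  | nil => intro k _ h; simp [wk] at h
  | cons h t ih =>
    intro k hk hw
    simp only [okRel, List.all_cons, Bool.and_eq_true, Nat.ble_eq] at hl
    cases t with
    | nil =>
      simp only [wk, Bool.and_eq_true, Nat.beq_eq] at hw
      exact ⟨[], by simp [hw.1], by simp [hw.2]⟩
    | cons h2 t2 =>
      rw [wk] at hw
      simp only [Bool.and_eq_true, Nat.ble_eq, Nat.succ_le_iff] at hw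
      have h1 := IH k hk h hl.1.1 hl.1.2 hw.1
      obtain ⟨l', e1, e2⟩ := ih hl.2 _ (hT k hk h hl.1.1 hl.1.2) hw.2
      refine ⟨h :: l', by rw [e1]; rfl, ?_⟩
      rw [List.map_cons, List.prod_cons, List.map_cons, List.prod_cons, ← mul_assoc, h1,
        mul_assoc, e2, mul_assoc]

/-- **Soundness** of coset enumeration certificates. -/
theorem edges {T RK J n a : ℕ} {rel : ℕ → List ℕ} {r u E : ℕ → G}
    (hr2 : ∀ g, a ≤ g → g ≤ 5 → r g * r g = 1) (hu2 : ∀ g, a ≤ g → g ≤ 5 → u g * u g = 1)
    (hok : ∀ i, okRel a (rel i) = true)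
    (hrel : ∀ i, ((rel i).map r).prod = 1) (hrelu : ∀ i, ((rel i).map u).prod = 1)
    (htree : ∀ x < n, ∀ g, a ≤ g → g ≤ 5 → getT J x g = 0 → E x * r g = u g * E (getT T x g))
    (hchk : ∀ x < n, ∀ g, a ≤ g → g ≤ 5 → chkE T RK J n rel x g = true) :
    ∀ x < n, ∀ g, a ≤ g → g ≤ 5 → getT T x g < n ∧ E x * r g = u g * E (getT T x g) := by
  have hT : ∀ x < n, ∀ g, a ≤ g → g ≤ 5 → getT T x g < n := by
    intro x hx g h1 h2
    have := hchk x hx g h1 h2
    simp only [chkE, Bool.and_eq_true, Nat.ble_eq, Nat.succ_le_iff] at this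
    exact this.1
  have key : ∀ e, ∀ x < n, ∀ g, a ≤ g → g ≤ 5 → getT RK x g = e →
      E x * r g = u g * E (getT T x g) := by
    intro e
    induction e using Nat.strong_induction_on with
    | _ e ih =>
      intro x hx g hg1 hg2 he
      have h := hchk x hx g hg1 hg2
      simp only [chkE, Bool.and_eq_true] at h
      obtain ⟨-, h⟩ := h
      rcases hJ : getT J x g with _ | _ | i
      · exact htree x hx g hg1 hg2 hJ
      · rw [hJ] at h
        simp only [Bool.and_eq_true, Nat.beq_eq, Nat.ble_eq, Nat.succ_le_iff] at h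
        obtain ⟨h1, h2⟩ := h
        rw [he] at h2
        have h3 := ih _ h2 _ (hT x hx g hg1 hg2) g hg1 hg2 rfl
        rw [h1] at h3
        have h4 : E x = (u g)⁻¹ * (E (getT T x g) * r g) := by rw [h3]; group
        have h5 : (u g)⁻¹ = u g := inv_eq_of_mul_eq_one_left (hu2 g hg1 hg2)
        rw [h4, h5, mul_assoc, mul_assoc, hr2 g hg1 hg2, mul_one]
      · rw [hJ] at h
        simp only at h
        rw [he] at h
        obtain ⟨l', e1, e2⟩ := wk_sound (J := J) hT e x g
          (fun k hk h' hh1 hh2 hlt => ih _ hlt k hk h' hh1 hh2 rfl) (rel i) (hok i) _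
          (hT x hx g hg1 hg2) h
        have h6 := hrel i
        have h7 := hrelu i
        rw [e1, List.map_append, List.prod_append] at h6 h7
        simp only [List.map_cons, List.map_nil, List.prod_cons, List.prod_nil, mul_one] at h6 h7
        -- E k * L = U * E x,  L * r g = 1,  U * u g = 1
        have h8 : (l'.map r).prod = (r g)⁻¹ := eq_inv_of_mul_eq_one_left h6
        have h9 : (l'.map u).prod = (u g)⁻¹ := eq_inv_of_mul_eq_one_left h7
        rw [h8, h9] at e2
        have h10 : (r g)⁻¹ = r g := inv_eq_of_mul_eq_one_left (hr2 g hg1 hg2)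
        have h11 : E x = u g * (E (getT T x g) * (r g)⁻¹) := by rw [e2]; group
        rw [h11]
        group
  intro x hx g h1 h2
  exact ⟨hT x hx g h1 h2, key _ x hx g h1 h2 rfl⟩

/-- the element with label word: `(∏ u)⁻¹ ∏ r` -/
def Ew (r u : ℕ → G) (l : List ℕ) : G := ((l.map u).prod)⁻¹ * (l.map r).prod

theorem Ew_append (r u : ℕ → G) (l : List ℕ) (g : ℕ) : Ew r u l * r g = u g * Ew r u (l ++ [g]) := by
  simp only [Ew, List.map_append, List.prod_append, List.map_cons, List.map_nil, List.prod_cons,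
    List.prod_nil, mul_one]
  group

/-- word number `x`, 80 bits each -/
def wdl (WD x : ℕ) : List ℕ := wl 26 (Nat.land (Nat.shiftRight WD (Nat.mul 80 x))
  1208925819614629174706175)

/-- check of the definitions -/
noncomputable def chkD (T J WD : ℕ) (x g : ℕ) : Bool :=
  match getT J x g with
  | 0 => decide (wdl WD (getT T x g) = wdl WD x ++ [g])
  | _ + 1 => true

theorem tree_of_chkD {T J WD : ℕ} {r u : ℕ → G} {x g : ℕ} (h : chkD T J WD x g = true)
    (hJ : getT J x g = 0) :
    Ew r u (wdl WD x) * r g = u g * Ew r u (wdl WD (getT T x g)) := by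
  rw [chkD, hJ] at h
  simp only [decide_eq_true_eq] at h
  rw [h, Ew_append]

/-- check for all rows -/
noncomputable def chkAll (T RK J WD n a : ℕ) (rel : ℕ → List ℕ) : Bool :=
  (List.range n).all fun x => (List.range' a (6 - a)).all fun g =>
    chkE T RK J n rel x g && chkD T J WD x g

/-- **Soundness**, final form. -/
theorem edges_of_chkAll {T RK J WD n a : ℕ} {rel : ℕ → List ℕ} {r u : ℕ → G}
    (hr2 : ∀ g, a ≤ g → g ≤ 5 → r g * r g = 1) (hu2 : ∀ g, a ≤ g → g ≤ 5 → u g * u g = 1)
    (hok : ∀ i, okRel a (rel i) = true)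
    (hrel : ∀ i, ((rel i).map r).prod = 1) (hrelu : ∀ i, ((rel i).map u).prod = 1)
    (hchk : chkAll T RK J WD n a rel = true) :
    ∀ x < n, ∀ g, a ≤ g → g ≤ 5 → getT T x g < n ∧
      Ew r u (wdl WD x) * r g = u g * Ew r u (wdl WD (getT T x g)) := by
  have h : ∀ x < n, ∀ g, a ≤ g → g ≤ 5 → chkE T RK J n rel x g = true ∧
      chkD T J WD x g = true := by
    intro x hx g h1 h2
    have := List.all_eq_true.1 hchk x (List.mem_range.2 hx)
    have := List.all_eq_true.1 this g (by rw [List.mem_range'_1]; omega)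
    rwa [Bool.and_eq_true] at this
  exact edges (E := fun x => Ew r u (wdl WD x)) hr2 hu2 hok hrel hrelu
    (fun x hx g h1 h2 hJ => tree_of_chkD (h x hx g h1 h2).2 hJ)
    (fun x hx g h1 h2 => (h x hx g h1 h2).1)

end Pool.Agent.Lib.MP_c2d01e_co.Dce
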