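import Pool.Agent.Lib.MP_c2d01e_co.Dce.Sound

/-!
# Certificates of double coset enumerations: soundness of the lines and of the closure check
-/

set_option autoImplicit false

namespace Pool.Agent.Lib.MP_c2d01e_co.Dce

variable {D : Data} {G : Type*} [Group G]

/-- the entry of the definition table -/
noncomputable def ent (D : Data) (j : ℕ) : ℕ :=
  Nat.land (Nat.shiftRight D.DT (Nat.mul 32 j)) 4294967295

namespace Sem

/-- the points chosen as representatives of the orbits -/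
noncomputable def dd (S : Sem D G) : ℕ → G
  | 0 => S.c
  | j + 1 => if h : ent D (j + 1) % 65536 < j + 1 then
      S.s * ((S.e (ent D (j + 1) / 65536))⁻¹ * dd S (ent D (j + 1) % 65536) *
        S.e (ent D (j + 1) / 65536)) * S.s else 1

variable (S : Sem D G)

theorem dd_zero : S.dd 0 = S.c := by rw [dd]

theorem dd_def {i j y : ℕ} (hi : i < j) (hi' : i < 65536) (h : ent D j = i + 65536 * y) :
    S.dd j = S.s * ((S.e y)⁻¹ * S.dd i * S.e y) * S.s := by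
  obtain ⟨j, rfl⟩ : ∃ j', j = j' + 1 := ⟨j - 1, by omega⟩
  have h1 : (i + 65536 * y) % 65536 = i := by omega
  have h2 : (i + 65536 * y) / 65536 = y := by omega
  rw [dd, h, h1, h2, dif_pos hi]

variable {S}

theorem V_zero {d : ℕ → G} (j : ℕ) : S.V d j 0 0 = d j := by
  rw [V, S.om_zero, S.e_zero]; simp

theorem holds_of_tag_one {d : ℕ → G} {c : ℕ} (h1 : cY c < D.nX) (h2 : cK c < D.nW)
    (h3 : cX c < D.nX) (ht : cT c = 1) (h : S.V d (cI c) (cK c) (cX c) = d (cI c)) :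
    HoldsC S d c := ⟨h1, h2, h3, fun _ => h, fun h0 => by omega⟩

theorem holds_of_tag_zero {d : ℕ → G} {c : ℕ} (h1 : cY c < D.nX) (h2 : cK c < D.nW)
    (h3 : cX c < D.nX) (ht : cT c = 0)
    (h : S.s * S.V d (cI c) 0 (cY c) * S.s = S.V d (cJ c) (cK c) (cX c)) :
    HoldsC S d c := ⟨h1, h2, h3, fun h0 => by omega, fun _ => h⟩

theorem line0_sound {c : ℕ} (h1 : cY c < D.nX) (h2 : cK c < D.nW)
    (h3 : cX c < D.nX) (h : line0 D c = true) : HoldsC S S.dd c := by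
  simp only [line0, cnd_true, Nat.beq_eq] at h
  obtain ⟨ht, hi, hc⟩ := h
  refine holds_of_tag_one h1 h2 h3 ht ?_
  have := S.chk0 _ _ h2 h3 hc
  rw [hi, V, dd_zero, mul_assoc, ← this]
  group

theorem line1_sound {c : ℕ} (h1 : cY c < D.nX) (h2 : cK c < D.nW)
    (h3 : cX c < D.nX) (h : line1 c = true) : HoldsC S S.dd c := by
  simp only [line1, Nat.beq_eq] at h
  subst h
  have e1 : cT 0 = 0 := rfl
  have e2 : cI 0 = 0 := rfl
  have e3 : cY 0 = 0 := rfl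
  have e4 : cJ 0 = 0 := rfl
  have e5 : cK 0 = 0 := rfl
  have e6 : cX 0 = 0 := rfl
  refine holds_of_tag_zero h1 h2 h3 e1 ?_
  rw [e2, e3, e4, e5, e6, V_zero, dd_zero, S.s_c]

theorem line2_sound {c : ℕ} (h1 : cY c < D.nX) (h2 : cK c < D.nW)
    (h3 : cX c < D.nX) (h : line2 D c = true) : HoldsC S S.dd c := by
  simp only [line2, cnd_true, Nat.beq_eq, Nat.ble_eq, Nat.succ_le_iff] at h
  obtain ⟨ht, hk, hx, hij, he⟩ := h
  refine holds_of_tag_zero h1 h2 h3 ht ?_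
  have hi : cI c < 65536 := lt_of_le_of_lt (Nat.and_le_right (n := c >>> 1) (m := 8191)) (by norm_num)
  rw [hk, hx, V_zero, S.dd_def hij hi he, V, S.om_zero, one_mul]

/-- products of points -/
theorem mulP {k x k' x' : ℕ} (hx : x < D.nX) (hk : k < D.nW) (hk' : k' < D.nW)
    (hx' : x' < D.nX) {k2 x2 : ℕ} (h : eqP D k x k' x' k2 x2 = true) :
    S.om k * S.e x * (S.om k' * S.e x') = S.om k2 * S.e x2 := by
  simp only [eqP, cnd_true, Nat.beq_eq] at h
  obtain ⟨h1, h2⟩ := h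
  rw [← h1, ← h2, ← (S.mulK_spec hk hk').2, ← S.e_add _ _ (S.actX_spec hx hk').1 hx']
  calc S.om k * S.e x * (S.om k' * S.e x') = S.om k * (S.e x * S.om k') * S.e x' := by group
    _ = _ := by rw [(S.actX_spec hx hk').2]; group

theorem V_eq_of {d : ℕ → G} {a k x kz xz ks xs : ℕ}
    (h1 : S.om ks * S.e xs * (S.om k * S.e x) = S.om kz * S.e xz)
    (h2 : S.V d a kz xz = S.V d a k x) : S.V d a ks xs = d a := by
  rw [V, V, ← h1] at h2
  have h3 : (S.om k * S.e x) * ((S.om ks * S.e xs * (S.om k * S.e x))⁻¹ * d a *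
      (S.om ks * S.e xs * (S.om k * S.e x))) * (S.om k * S.e x)⁻¹ =
      (S.om k * S.e x) * ((S.om k * S.e x)⁻¹ * d a * (S.om k * S.e x)) * (S.om k * S.e x)⁻¹ := by
    rw [h2]
  rw [V]
  calc (S.om ks * S.e xs)⁻¹ * d a * (S.om ks * S.e xs)
      = (S.om k * S.e x) * ((S.om ks * S.e xs * (S.om k * S.e x))⁻¹ * d a *
      (S.om ks * S.e xs * (S.om k * S.e x))) * (S.om k * S.e x)⁻¹ := by group
    _ = _ := by rw [h3]; group

theorem line3_sound {d : ℕ → G} {n c s : ℕ} {K : ℕ → Bool}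
    (hH : ∀ m < n, HoldsC S d (con D m)) (h1 : cY c < D.nX) (h2 : cK c < D.nW)
    (h3 : cX c < D.nX) (h : line3 D n c s K = true) : HoldsC S d c ∧ ∃ s', K s' = true := by
  simp only [line3, rd_eq, frb_eq, cnd_true, Nat.beq_eq, Nat.ble_eq, Nat.succ_le_iff] at h
  obtain ⟨hm, ht, ht', hij, hji, e1, e2, e3, hK⟩ := h
  refine ⟨holds_of_tag_zero h1 h2 h3 ht ?_, _, hK⟩
  obtain ⟨g1, g2, g3, -, g4⟩ := hH _ hm
  set c' := con D (s.land 1048575) with hc'
  have g5 := g4 ht'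
  rw [hij, hji]
  have a1 : S.V d (cJ c') (cK c') (cX c') = (S.om (cK c'))⁻¹ * S.V d (cJ c') 0 (cY c) *
      S.om (cK c') := by
    have := (S.actX_spec h1 g2).2
    rw [e1] at this
    rw [V, V, ← this, S.om_zero]
    group
  have a2 : S.V d (cI c') (cK c) (cX c) =
      S.om (cK c') * S.V d (cI c') 0 (cY c') * (S.om (cK c'))⁻¹ := by
    have b1 := (S.actX_spec h3 g2).2
    have b2 := (S.mulK_spec h2 g2).2
    rw [e3] at b1
    rw [e2, S.om_zero] at b2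
    have b3 : S.om (cK c) * S.e (cX c) = S.e (cY c') * (S.om (cK c'))⁻¹ := by
      calc S.om (cK c) * S.e (cX c) = S.om (cK c) * (S.e (cX c) * S.om (cK c')) *
            (S.om (cK c'))⁻¹ := by group
        _ = S.om (cK c) * S.om (cK c') * S.e (cY c') * (S.om (cK c'))⁻¹ := by rw [b1]; group
        _ = _ := by rw [b2, one_mul]
    rw [V, V, b3, S.om_zero]
    group
  have a3 : S.V d (cJ c') 0 (cY c) = S.om (cK c') * S.V d (cJ c') (cK c') (cX c') *
      (S.om (cK c'))⁻¹ := by rw [a1]; group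
  have h4 : S.s * S.om (cK c') = S.om (cK c') * S.s := S.s_om g2
  have h5 : (S.om (cK c'))⁻¹ * S.s = S.s * (S.om (cK c'))⁻¹ := by
    rw [inv_mul_eq_iff_eq_mul, ← mul_assoc, ← h4, mul_assoc, mul_inv_cancel, mul_one]
  rw [a2, a3, ← g5]
  calc S.s * (S.om (cK c') * (S.s * S.V d (cI c') 0 (cY c') * S.s) * (S.om (cK c'))⁻¹) * S.s
      = (S.s * S.om (cK c')) * S.s * S.V d (cI c') 0 (cY c') * S.s *
        ((S.om (cK c'))⁻¹ * S.s) := by group
    _ = S.om (cK c') * (S.s * S.s) * S.V d (cI c') 0 (cY c') * (S.s * S.s) *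
        (S.om (cK c'))⁻¹ := by rw [h4, h5]; group
    _ = _ := by rw [S.s_sq]; group

theorem rdP_sound {s : ℕ} {K : ℕ → ℕ → ℕ → ℕ → Bool} (h : rdP D s K = true) :
    ∃ a k x s', k < D.nW ∧ x < D.nX ∧ K a k x s' = true := by
  simp only [rdP, rd_eq, cnd_true, Nat.ble_eq, Nat.succ_le_iff] at h
  exact ⟨_, _, _, _, h.1, h.2.1, h.2.2⟩

theorem line4_sound {d : ℕ → G} {n c s : ℕ} {K : ℕ → Bool}
    (hH : ∀ m < n, HoldsC S d (con D m)) (h1 : cY c < D.nX) (h2 : cK c < D.nW)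
    (h3 : cX c < D.nX) (h : line4 D n c s K = true) : HoldsC S d c ∧ ∃ s', K s' = true := by
  obtain ⟨a, k, x, s1, hk, hx, h⟩ := rdP_sound h
  obtain ⟨b, kb, xb, s2, hkb, hxb, hV, h⟩ := poly_sound hH _ _ _ _ _ _ hk hx h
  simp only [cnd_true, Nat.beq_eq] at h
  obtain ⟨ht, hi, hy, hj, ek, ex, hK⟩ := h
  refine ⟨holds_of_tag_zero h1 h2 h3 ht ?_, _, hK⟩
  set g := (S.s * S.r 1) ^ (Nat.pred D.pol) with hg
  have hg2 : g * S.s * S.r 1 = 1 := by
    have := S.polyg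
    obtain ⟨p, hp⟩ : ∃ p, D.pol = p + 1 := ⟨D.pol - 1, by have := S.pol_pos; omega⟩
    rw [hg, hp, Nat.pred_succ, mul_assoc, ← pow_succ, ← hp, this]
  have hg3 : g = S.r 1 * S.s := by
    rw [mul_assoc] at hg2
    rw [eq_inv_of_mul_eq_one_left hg2, mul_inv_rev, s_inv, r1_inv]
  -- the image of the last point
  have b1 := V_r1 (S := S) (d := d) (i := cJ c) (S.mulK_spec h2 hkb).1 (S.actX_spec h3 hkb).1
  rw [ek, ex, V_om h2 h3 hkb, hj] at b1
  -- b1 : V a k x = r1⁻¹ * (om kb⁻¹ * V a .. * om kb) * r1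
  have b2 := V_y (S := S) (d := d) (i := b) hkb hxb
  rw [hi, hy, hj]
  rw [b2, hg3, b1] at hV
  have h4 : S.s * S.om kb = S.om kb * S.s := S.s_om hkb
  have h5 : (S.om kb)⁻¹ * S.s = S.s * (S.om kb)⁻¹ := by
    rw [inv_mul_eq_iff_eq_mul, ← mul_assoc, ← h4, mul_assoc, mul_inv_cancel, mul_one]
  generalize S.V d b 0 (actX D xb (inv D kb)) = P at hV ⊢
  generalize S.V d a (cK c) (cX c) = Q at hV ⊢
  have h6 : P = S.om kb * ((S.r 1 * S.s)⁻¹ * ((S.r 1)⁻¹ * ((S.om kb)⁻¹ * Q * S.om kb) * S.r 1) *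
      (S.r 1 * S.s)) * (S.om kb)⁻¹ := by rw [← hV]; group
  have h7 : (S.r 1 * S.s)⁻¹ * ((S.r 1)⁻¹ * ((S.om kb)⁻¹ * Q * S.om kb) * S.r 1) *
      (S.r 1 * S.s) = S.s * ((S.om kb)⁻¹ * Q * S.om kb) * S.s := by
    rw [mul_inv_rev, s_inv, r1_inv]
    calc S.s * S.r 1 * (S.r 1 * ((S.om kb)⁻¹ * Q * S.om kb) * S.r 1) * (S.r 1 * S.s)
        = S.s * (S.r 1 * S.r 1) * ((S.om kb)⁻¹ * Q * S.om kb) * (S.r 1 * S.r 1) * S.s := by group
      _ = _ := by rw [S.r1_sq]; group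
  rw [h6, h7]
  calc S.s * (S.om kb * (S.s * ((S.om kb)⁻¹ * Q * S.om kb) * S.s) * (S.om kb)⁻¹) * S.s
      = (S.s * S.om kb) * S.s * ((S.om kb)⁻¹ * Q * S.om kb) * S.s * ((S.om kb)⁻¹ * S.s) := by group
    _ = S.om kb * (S.s * S.s) * ((S.om kb)⁻¹ * Q * S.om kb) * (S.s * S.s) * (S.om kb)⁻¹ := by
        rw [h4, h5]; group
    _ = _ := by rw [S.s_sq]; group

theorem line5_sound {d : ℕ → G} {n c s : ℕ} {K : ℕ → Bool}
    (hH : ∀ m < n, HoldsC S d (con D m)) (h1 : cY c < D.nX) (h2 : cK c < D.nW)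
    (h3 : cX c < D.nX) (h : line5 D n c s K = true) : HoldsC S d c ∧ ∃ s', K s' = true := by
  obtain ⟨a, k, x, s1, hk, hx, h⟩ := rdP_sound h
  obtain ⟨b, kb, xb, s2, hkb, hxb, hV, h⟩ := poly_sound hH _ _ _ _ _ _ hk hx h
  simp only [cnd_true, Nat.beq_eq] at h
  obtain ⟨ht, hi, hb, he, hK⟩ := h
  refine ⟨holds_of_tag_one h1 h2 h3 ht ?_, _, hK⟩
  rw [hi]
  rw [S.polyg, hb] at hV
  exact V_eq_of (mulP h3 h2 hk hx he) (by rw [hV]; simp)

theorem line6_sound {d : ℕ → G} {n c s : ℕ} {K : ℕ → Bool}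
    (hH : ∀ m < n, HoldsC S d (con D m)) (h1 : cY c < D.nX) (h2 : cK c < D.nW)
    (h3 : cX c < D.nX) (h : line6 D n c s K = true) : HoldsC S d c ∧ ∃ s', K s' = true := by
  obtain ⟨a, k, x, s1, hk, hx, h⟩ := rdP_sound h
  obtain ⟨j1, k1, x1, s2, hk1, hx1, hV1, h⟩ := look_sound hH hk hx h
  obtain ⟨j2, k2, x2, s3, hk2, hx2, hV2, h⟩ := look_sound hH hk hx h
  simp only [cnd_true, Nat.beq_eq] at h
  obtain ⟨ht, hi, hj, he, hK⟩ := h
  refine ⟨holds_of_tag_one h1 h2 h3 ht ?_, _, hK⟩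
  rw [hi]
  subst hj
  exact V_eq_of (mulP h3 h2 hk2 hx2 he) (by rw [← hV1, hV2])

theorem line7_sound {d : ℕ → G} {n c s : ℕ} {K : ℕ → Bool}
    (hH : ∀ m < n, HoldsC S d (con D m)) (h1 : cY c < D.nX) (h2 : cK c < D.nW)
    (h3 : cX c < D.nX) (h : line7 D n c s K = true) : HoldsC S d c ∧ ∃ s', K s' = true := by
  simp only [line7, rd_eq, frb_eq, cnd_true, Nat.beq_eq, Nat.ble_eq, Nat.succ_le_iff] at h
  obtain ⟨hm, ht, ht', hi, he, hK⟩ := h
  refine ⟨holds_of_tag_one h1 h2 h3 ht ?_, _, hK⟩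
  obtain ⟨g1, g2, g3, g4, -⟩ := hH _ hm
  have g5 := g4 ht'
  rw [hi]
  refine V_eq_of (mulP h3 h2 g2 g3 he) ?_
  rw [g5, V_zero]

theorem line_sound {n s : ℕ} {K : ℕ → Bool}
    (hH : ∀ m < n, HoldsC S S.dd (con D m)) (h : line D n s K = true) :
    HoldsC S S.dd (con D n) ∧ ∃ s', K s' = true := by
  rw [line, rd_eq, frb_eq] at h
  generalize Nat.land s 1048575 = rule at h
  generalize Nat.shiftRight s 20 = s1 at h
  simp only [cnd_true, Nat.ble_eq, Nat.succ_le_iff] at h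
  obtain ⟨h1, h2, h3, h⟩ := h
  rcases rule with _ | _ | _ | _ | _ | _ | _ | _
  · have h' : cnd (line0 D (con D n)) (K s1) = true := h
    rw [cnd_true] at h'
    exact ⟨line0_sound h1 h2 h3 h'.1, _, h'.2⟩
  · have h' : cnd (line1 (con D n)) (K s1) = true := h
    rw [cnd_true] at h'
    exact ⟨line1_sound h1 h2 h3 h'.1, _, h'.2⟩
  · have h' : cnd (line2 D (con D n)) (K s1) = true := h
    rw [cnd_true] at h'
    exact ⟨line2_sound h1 h2 h3 h'.1, _, h'.2⟩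
  · exact line3_sound hH h1 h2 h3 h
  · exact line4_sound hH h1 h2 h3 h
  · exact line5_sound hH h1 h2 h3 h
  · exact line6_sound hH h1 h2 h3 h
  · exact line7_sound hH h1 h2 h3 h

theorem run_sound (t : ℕ) : ∀ (n s : ℕ), (∀ m < n, HoldsC S S.dd (con D m)) →
    run D t n s = true → ∀ m < n + t, HoldsC S S.dd (con D m) := by
  induction t with
  | zero => intro n s hH _ m hm; exact hH m (by omega)
  | succ t ih =>
    intro n s hH h m hm
    have h' : (line D n s fun s' => run D t (Nat.succ n) s') = true := h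
    obtain ⟨h1, s', h2⟩ := line_sound hH h'
    refine ih (n + 1) s' ?_ h2 m (by omega)
    intro m hm
    rcases Nat.lt_succ_iff_lt_or_eq.1 hm with h3 | rfl
    · exact hH m h3
    · exact h1

end Sem

end Pool.Agent.Lib.MP_c2d01e_co.Dce
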