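import Pool.Agent.Lib.MP_c2d01e_co.Dce.Cert
import Pool.Agent.Lib.MP_c2d01e_co.Dce.Lines

/-!
# Verification of the certificate by the kernel
-/

set_option autoImplicit false
set_option maxRecDepth 100000

namespace Pool.Agent.Lib.MP_c2d01e_co.Dce

theorem run0 : run D33 100 0 S0 = true := by decide +kernel

theorem run1 : run D33 100 100 S1 = true := by decide +kernel

theorem run2 : run D33 100 200 S2 = true := by decide +kernel

theorem run3 : run D33 100 300 S3 = true := by decide +kernel

theorem run4 : run D33 100 400 S4 = true := by decide +kernel

theorem run5 : run D33 100 500 S5 = true := by decide +kernel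

theorem run6 : run D33 100 600 S6 = true := by decide +kernel

theorem run7 : run D33 100 700 S7 = true := by decide +kernel

theorem run8 : run D33 100 800 S8 = true := by decide +kernel

theorem run9 : run D33 100 900 S9 = true := by decide +kernel

theorem run10 : run D33 100 1000 S10 = true := by decide +kernel

theorem run11 : run D33 100 1100 S11 = true := by decide +kernel

theorem run12 : run D33 100 1200 S12 = true := by decide +kernel

theorem run13 : run D33 100 1300 S13 = true := by decide +kernel

theorem run14 : run D33 100 1400 S14 = true := by decide +kernel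

theorem run15 : run D33 100 1500 S15 = true := by decide +kernel

theorem run16 : run D33 100 1600 S16 = true := by decide +kernel

theorem run17 : run D33 100 1700 S17 = true := by decide +kernel

theorem run18 : run D33 100 1800 S18 = true := by decide +kernel

theorem run19 : run D33 100 1900 S19 = true := by decide +kernel

theorem run20 : run D33 100 2000 S20 = true := by decide +kernel

theorem run21 : run D33 100 2100 S21 = true := by decide +kernel

theorem run22 : run D33 100 2200 S22 = true := by decide +kernel

theorem run23 : run D33 100 2300 S23 = true := by decide +kernel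

theorem run24 : run D33 100 2400 S24 = true := by decide +kernel

theorem run25 : run D33 100 2500 S25 = true := by decide +kernel

theorem run26 : run D33 100 2600 S26 = true := by decide +kernel

theorem run27 : run D33 100 2700 S27 = true := by decide +kernel

theorem run28 : run D33 100 2800 S28 = true := by decide +kernel

theorem run29 : run D33 100 2900 S29 = true := by decide +kernel

theorem run30 : run D33 47 3000 S30 = true := by decide +kernel

/-- all facts of the certificate hold -/
theorem holds_all {G : Type*} [Group G] (S : Sem D33 G) :
    ∀ m < 3047, Sem.HoldsC S S.dd (con D33 m) := by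
  have h0 := Sem.run_sound (S := S) 100 0 S0 (fun m hm => absurd hm (Nat.not_lt_zero m)) run0
  have h1 := Sem.run_sound (S := S) 100 100 S1 h0 run1
  have h2 := Sem.run_sound (S := S) 100 200 S2 h1 run2
  have h3 := Sem.run_sound (S := S) 100 300 S3 h2 run3
  have h4 := Sem.run_sound (S := S) 100 400 S4 h3 run4
  have h5 := Sem.run_sound (S := S) 100 500 S5 h4 run5
  have h6 := Sem.run_sound (S := S) 100 600 S6 h5 run6
  have h7 := Sem.run_sound (S := S) 100 700 S7 h6 run7
  have h8 := Sem.run_sound (S := S) 100 800 S8 h7 run8
  have h9 := Sem.run_sound (S := S) 100 900 S9 h8 run9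
  have h10 := Sem.run_sound (S := S) 100 1000 S10 h9 run10
  have h11 := Sem.run_sound (S := S) 100 1100 S11 h10 run11
  have h12 := Sem.run_sound (S := S) 100 1200 S12 h11 run12
  have h13 := Sem.run_sound (S := S) 100 1300 S13 h12 run13
  have h14 := Sem.run_sound (S := S) 100 1400 S14 h13 run14
  have h15 := Sem.run_sound (S := S) 100 1500 S15 h14 run15
  have h16 := Sem.run_sound (S := S) 100 1600 S16 h15 run16
  have h17 := Sem.run_sound (S := S) 100 1700 S17 h16 run17
  have h18 := Sem.run_sound (S := S) 100 1800 S18 h17 run18
  have h19 := Sem.run_sound (S := S) 100 1900 S19 h18 run19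
  have h20 := Sem.run_sound (S := S) 100 2000 S20 h19 run20
  have h21 := Sem.run_sound (S := S) 100 2100 S21 h20 run21
  have h22 := Sem.run_sound (S := S) 100 2200 S22 h21 run22
  have h23 := Sem.run_sound (S := S) 100 2300 S23 h22 run23
  have h24 := Sem.run_sound (S := S) 100 2400 S24 h23 run24
  have h25 := Sem.run_sound (S := S) 100 2500 S25 h24 run25
  have h26 := Sem.run_sound (S := S) 100 2600 S26 h25 run26
  have h27 := Sem.run_sound (S := S) 100 2700 S27 h26 run27
  have h28 := Sem.run_sound (S := S) 100 2800 S28 h27 run28
  have h29 := Sem.run_sound (S := S) 100 2900 S29 h28 run29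
  have h30 := Sem.run_sound (S := S) 47 3000 S30 h29 run30
  exact h30

end Pool.Agent.Lib.MP_c2d01e_co.Dce
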