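import Pool.Agent.Lib.MP_c2d01e_co.Dce.Inst
import Pool.Agent.Lib.MP_c2d01e_co.Dce.Run
import Pool.Agent.Lib.MP_c2d01e_co.Dce.Clo

/-!
# Finiteness of the group with parameter vector `(3,3,0,0)`
-/

set_option autoImplicit false

namespace Pool.Agent.Lib.MP_c2d01e_co.Dce

variable {G : Type*} [Group G] {r : ℕ → G}

theorem braid_of (a b : G) (ha : a * a = 1) (hb : b * b = 1) (h : (a * b) ^ 3 = 1) :
    a * b * a = b * a * b := by
  have ha' : a⁻¹ = a := inv_eq_of_mul_eq_one_left ha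
  have hb' : b⁻¹ = b := inv_eq_of_mul_eq_one_left hb
  have h3 : a * b * (a * b) * (a * b) = 1 := by
    rw [pow_succ, pow_succ, pow_one] at h
    exact h
  calc a * b * a = (a * b * (a * b) * (a * b)) * (b⁻¹ * a⁻¹ * b⁻¹) := by group
    _ = b * a * b := by rw [h3, one_mul, ha', hb']

/-- elements of `⟨r 1, …, r 5⟩` -/
def PS (r : ℕ → G) : Set G :=
  (fun p : ℕ × ℕ => om r p.1 * EE r (rep p.2)) '' (Set.Iio 1152 ×ˢ Set.Iio 324)

theorem PS_finite : (PS r).Finite :=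
  (Set.Finite.prod (Set.finite_Iio _) (Set.finite_Iio _)).image _

theorem one_mem_PS : (1 : G) ∈ PS r := by
  refine ⟨(0, 0), ⟨by norm_num, by norm_num⟩, ?_⟩
  simp only
  rw [om_zero', one_mul]
  exact EE_zero

theorem PS_mul (h : Rel33 r) {g : G} (hg : g ∈ PS r) {i : ℕ} (h1 : 1 ≤ i) (h5 : i ≤ 5) :
    g * r i ∈ PS r := by
  obtain ⟨⟨k, x⟩, ⟨hk, hx⟩, rfl⟩ := hg
  have hk : k < 1152 := hk
  have hx : x < 324 := hx
  obtain ⟨a, b⟩ := chkA x hx i h1 h5
  rcases Nat.eq_or_lt_of_le h1 with rfl | h2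
  · obtain ⟨c, d⟩ := om_s1' h.toF4t hk
    refine ⟨(getT TW k 1, getT AX x 1), ⟨c, a⟩, ?_⟩
    simp only
    rw [mul_assoc, EE_r1 h.toF4t, ← mul_assoc, d]
    exact congrArg _ (EE_eq h b).symm
  · obtain ⟨c, d⟩ := om_edge h.toF4t k hk i h2 h5
    refine ⟨(getT TW k i, getT AX x i), ⟨c, a⟩, ?_⟩
    have e : stp i (rep x) = lin i (rep x) := by rw [stp, if_neg (by omega)]
    rw [e] at b
    simp only
    rw [mul_assoc, EE_lin h.toF4t h2 h5, ← mul_assoc, d]
    exact congrArg _ (EE_eq h b).symm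

/-- **Finiteness.** -/
theorem finite_of_rel33 (h : Rel33 r) (hgen : Subgroup.closure {g | ∃ i, i ≤ 5 ∧ g = r i} = ⊤) :
    Finite G := by
  have sq : ∀ i, i ≤ 5 → r i * r i = 1 := by
    intro i hi
    rcases Nat.eq_zero_or_pos i with rfl | h1
    · exact h.sq0
    · exact h.sq i h1 hi
  have inv' : ∀ i, i ≤ 5 → (r i)⁻¹ = r i := fun i hi => inv_eq_of_mul_eq_one_left (sq i hi)
  have hA2 : ∀ a ∈ {g | ∃ i, i ≤ 5 ∧ g = r i}, a * a = 1 := by
    rintro a ⟨i, hi, rfl⟩; exact sq i hi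
  obtain ⟨T, hT, hc, hs, hr⟩ := Sem.class_finite (S := sem33 h) (nO := 75) (by norm_num)
    (cov_all (sem33 h) (holds_all (sem33 h)))
  have hconj : ∀ a ∈ {g | ∃ i, i ≤ 5 ∧ g = r i}, ∀ g ∈ T, a * g * a ∈ T := by
    rintro a ⟨i, hi, rfl⟩ g hg
    rcases Nat.eq_zero_or_pos i with rfl | h1
    · exact hs g hg
    · have := hr i h1 hi g hg
      rwa [show (sem33 h).r i = r i from rfl, inv' i hi] at this
  obtain ⟨H, hHf, hHn, h5H⟩ := closure_normal_finite hgen hA2 hT hconj (c := r 5) hc (sq 5 le_rfl)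
  have b01 := braid_of _ _ (sq 0 (by norm_num)) (sq 1 (by norm_num)) h.braid0
  have b12 := braid_of _ _ (sq 1 (by norm_num)) (sq 2 (by norm_num))
    (h.cox 1 2 (by norm_num) (by norm_num) (by norm_num) (by norm_num) (by norm_num))
  have b23 := braid_of _ _ (sq 2 (by norm_num)) (sq 3 (by norm_num))
    (h.cox 2 3 (by norm_num) (by norm_num) (by norm_num) (by norm_num) (by norm_num))
  have b45 := braid_of _ _ (sq 4 (by norm_num)) (sq 5 (by norm_num))
    (h.cox 4 5 (by norm_num) (by norm_num) (by norm_num) (by norm_num) (by norm_num))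
  have c02 := h.comm0 2 (by norm_num) (by norm_num)
  have c03 := h.comm0 3 (by norm_num) (by norm_num)
  have c13 := comm_of_cox2 h.toF4t (i := 1) (j := 3) (by norm_num) (by norm_num) (by norm_num)
    (by norm_num) (by norm_num) rfl
  have h4H : r 4 ∈ H := by
    have e : r 4 = (r 5 * r 4) * r 5 * (r 5 * r 4)⁻¹ := by
      rw [mul_inv_rev, inv' 4 (by norm_num), inv' 5 le_rfl]
      calc r 4 = (r 5 * r 5) * r 4 * (r 5 * r 5) := by rw [sq 5 le_rfl]; simp
        _ = r 5 * (r 5 * r 4 * r 5) * r 5 := by group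
        _ = r 5 * (r 4 * r 5 * r 4) * r 5 := by rw [b45]
        _ = _ := by group
    rw [e]
    exact hHn.conj_mem _ h5H _
  -- the transversal of `⟨r 1, r 2, r 3⟩` in `⟨r 0, …, r 3⟩`
  set t : Fin 5 → G := ![1, r 0, r 0 * r 1, r 0 * r 1 * r 2, r 0 * r 1 * r 2 * r 3] with ht
  have s0 := sq 0 (by norm_num)
  have s1 := sq 1 (by norm_num)
  have s2 := sq 2 (by norm_num)
  have s3 := sq 3 (by norm_num)
  have key : ∀ j : Fin 5, ∀ i, i ≤ 3 → (∃ j' : Fin 5, t j * r i = t j') ∨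
      ∃ l, 1 ≤ l ∧ l ≤ 5 ∧ ∃ j' : Fin 5, t j * r i = r l * t j' := by
    intro j i hi
    have hi' : i = 0 ∨ i = 1 ∨ i = 2 ∨ i = 3 := by omega
    fin_cases j
    · rcases hi' with rfl | rfl | rfl | rfl
      · exact Or.inl ⟨1, by simp [ht]⟩
      · exact Or.inr ⟨1, by norm_num, by norm_num, 0, by simp [ht]⟩
      · exact Or.inr ⟨2, by norm_num, by norm_num, 0, by simp [ht]⟩
      · exact Or.inr ⟨3, by norm_num, by norm_num, 0, by simp [ht]⟩
    · rcases hi' with rfl | rfl | rfl | rfl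
      · exact Or.inl ⟨0, by simp [ht, s0]⟩
      · exact Or.inl ⟨2, by simp [ht]⟩
      · exact Or.inr ⟨2, by norm_num, by norm_num, 1, by simp [ht, c02]⟩
      · exact Or.inr ⟨3, by norm_num, by norm_num, 1, by simp [ht, c03]⟩
    · rcases hi' with rfl | rfl | rfl | rfl
      · refine Or.inr ⟨1, by norm_num, by norm_num, 2, ?_⟩
        show r 0 * r 1 * r 0 = r 1 * (r 0 * r 1)
        rw [b01, mul_assoc]
      · refine Or.inl ⟨1, ?_⟩
        show r 0 * r 1 * r 1 = r 0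
        rw [mul_assoc, s1, mul_one]
      · exact Or.inl ⟨3, rfl⟩
      · refine Or.inr ⟨3, by norm_num, by norm_num, 2, ?_⟩
        show r 0 * r 1 * r 3 = r 3 * (r 0 * r 1)
        rw [mul_assoc, c13, ← mul_assoc, c03, mul_assoc]
    · rcases hi' with rfl | rfl | rfl | rfl
      · refine Or.inr ⟨1, by norm_num, by norm_num, 3, ?_⟩
        show r 0 * r 1 * r 2 * r 0 = r 1 * (r 0 * r 1 * r 2)
        calc r 0 * r 1 * r 2 * r 0 = r 0 * r 1 * (r 2 * r 0) := by group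
          _ = (r 0 * r 1 * r 0) * r 2 := by rw [← c02]; group
          _ = _ := by rw [b01]; group
      · refine Or.inr ⟨2, by norm_num, by norm_num, 3, ?_⟩
        show r 0 * r 1 * r 2 * r 1 = r 2 * (r 0 * r 1 * r 2)
        calc r 0 * r 1 * r 2 * r 1 = r 0 * (r 1 * r 2 * r 1) := by group
          _ = (r 0 * r 2) * (r 1 * r 2) := by rw [b12]; group
          _ = _ := by rw [c02]; group
      · refine Or.inl ⟨2, ?_⟩
        show r 0 * r 1 * r 2 * r 2 = r 0 * r 1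
        rw [mul_assoc, s2, mul_one]
      · exact Or.inl ⟨4, rfl⟩
    · rcases hi' with rfl | rfl | rfl | rfl
      · refine Or.inr ⟨1, by norm_num, by norm_num, 4, ?_⟩
        show r 0 * r 1 * r 2 * r 3 * r 0 = r 1 * (r 0 * r 1 * r 2 * r 3)
        calc r 0 * r 1 * r 2 * r 3 * r 0 = r 0 * r 1 * r 2 * (r 3 * r 0) := by group
          _ = r 0 * r 1 * (r 2 * r 0) * r 3 := by rw [← c03]; group
          _ = (r 0 * r 1 * r 0) * r 2 * r 3 := by rw [← c02]; group
          _ = _ := by rw [b01]; group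
      · refine Or.inr ⟨2, by norm_num, by norm_num, 4, ?_⟩
        show r 0 * r 1 * r 2 * r 3 * r 1 = r 2 * (r 0 * r 1 * r 2 * r 3)
        calc r 0 * r 1 * r 2 * r 3 * r 1 = r 0 * r 1 * r 2 * (r 3 * r 1) := by group
          _ = r 0 * (r 1 * r 2 * r 1) * r 3 := by rw [← c13]; group
          _ = (r 0 * r 2) * (r 1 * r 2) * r 3 := by rw [b12]; group
          _ = _ := by rw [c02]; group
      · refine Or.inr ⟨3, by norm_num, by norm_num, 4, ?_⟩
        show r 0 * r 1 * r 2 * r 3 * r 2 = r 3 * (r 0 * r 1 * r 2 * r 3)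
        calc r 0 * r 1 * r 2 * r 3 * r 2 = r 0 * r 1 * (r 2 * r 3 * r 2) := by group
          _ = r 0 * (r 1 * r 3) * r 2 * r 3 := by rw [b23]; group
          _ = (r 0 * r 3) * r 1 * r 2 * r 3 := by rw [c13]; group
          _ = _ := by rw [c03]; group
      · refine Or.inl ⟨3, ?_⟩
        show r 0 * r 1 * r 2 * r 3 * r 3 = r 0 * r 1 * r 2
        rw [mul_assoc, s3, mul_one]
  refine finite_of_closed (A := {g | ∃ i, i ≤ 5 ∧ g = r i})
    (T := (fun p : G × G × Fin 5 => p.1 * p.2.1 * t p.2.2) ''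
      ((H : Set G) ×ˢ (PS r ×ˢ Set.univ))) hgen hA2 ?_ ?_ ?_
  · exact (hHf.prod (PS_finite.prod Set.finite_univ)).image _
  · exact ⟨(1, 1, 0), ⟨H.one_mem, one_mem_PS, trivial⟩, by simp [ht]⟩
  · rintro _ ⟨⟨a, p, j⟩, ⟨ha, hp, -⟩, rfl⟩ _ ⟨i, hi, rfl⟩
    have ha : a ∈ H := ha
    have hp : p ∈ PS r := hp
    by_cases hi3 : i ≤ 3
    · rcases key j i hi3 with ⟨j', e⟩ | ⟨l, hl1, hl5, j', e⟩
      · refine ⟨(a, p, j'), ⟨ha, hp, trivial⟩, ?_⟩
        simp only
        rw [← e]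
        group
      · refine ⟨(a, p * r l, j'), ⟨ha, PS_mul h hp hl1 hl5, trivial⟩, ?_⟩
        simp only
        rw [mul_assoc (a * p), e]
        group
    · have hiH : r i ∈ H := by
        have : i = 4 ∨ i = 5 := by omega
        rcases this with rfl | rfl
        · exact h4H
        · exact h5H
      refine ⟨(a * ((p * t j) * r i * (p * t j)⁻¹), p, j),
        ⟨H.mul_mem ha (hHn.conj_mem _ hiH _), hp, trivial⟩, ?_⟩
      simp only
      group

end Pool.Agent.Lib.MP_c2d01e_co.Dce
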