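import Pool.Agent.Lib.MP_c2d01e_co.Dce.PCalc
import Pool.Agent.Lib.MP_c2d01e_co.Dce.Close
import Pool.Agent.Lib.MP_c2d01e_co.Dce.Cert

/-!
# The calculus for the vector `(3,3,0,0)`
-/

set_option autoImplicit false
set_option maxRecDepth 100000

namespace Pool.Agent.Lib.MP_c2d01e_co.Dce

variable {G : Type*} [Group G] {r : ℕ → G}

/-- one step on the translation part -/
def stp (g : ℕ) (v : Z4) : Z4 := if g = 1 then lin 1 v + (2, -1, -1, -1) else lin g v

theorem col1 : ∀ k < 1152, fl TW w1 k = getT TW k 1 := by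
  have h : (List.range 1152).all (fun k => Nat.beq (fl TW w1 k) (getT TW k 1)) = true := by
    decide +kernel
  intro k hk
  have := List.all_eq_true.1 h k (List.mem_range.2 hk)
  rwa [Nat.beq_eq] at this

theorem EE_fold (h : F4t r) (l : List ℕ) (hl : ∀ i ∈ l, 2 ≤ i ∧ i ≤ 5) (v : Z4) :
    EE r v * lp r l = lp r l * EE r (l.foldl (fun v g => lin g v) v) := by
  induction l generalizing v with
  | nil => simp [lp]
  | cons a l ih =>
    have ha := hl a (by simp)
    rw [lp_cons, ← mul_assoc, EE_lin h ha.1 ha.2, mul_assoc, ih (fun i hi => hl i (by simp [hi])),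
      mul_assoc]
    rfl

theorem lin_sig (v0 v1 v2 v3 : ℤ) : lin 2 (lin 3 (lin 4 (lin 3 (lin 2 (v0, v1, v2, v3))))) =
    (v0 + 2 * v1, -v1, -v1 + v2, -v1 + v3) := by
  simp only [lin, Prod.mk.injEq]
  refine ⟨by ring, by ring, by ring, by ring⟩

theorem lin_tau (v0 v1 v2 v3 : ℤ) : lin 5 (lin 4 (lin 3 (lin 4 (lin 5 (v0, v1, v2, v3))))) =
    (v0, -v0 - v1, v2, v3) := by
  simp only [lin]

theorem lin_w1 (v : Z4) : w1.foldl (fun v g => lin g v) v = lin 1 v := by
  obtain ⟨v0, v1, v2, v3⟩ := v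
  rw [w1]
  simp only [List.foldl_cons, List.foldl_nil]
  rw [lin_sig, lin_tau, lin_sig]
  simp only [lin, Prod.mk.injEq]
  refine ⟨by ring, by ring, by ring, by ring⟩

theorem EE_s1 (h : F4t r) (v : Z4) : EE r v * s1 r = s1 r * EE r (lin 1 v) := by
  rw [← lin_w1]
  exact EE_fold h _ w1_ok v

theorem EE_r1 (h : F4t r) (v : Z4) : EE r v * r 1 = s1 r * EE r (lin 1 v + (2, -1, -1, -1)) := by
  conv_lhs => rw [r1_eq h]
  rw [← mul_assoc, EE_s1 h, mul_assoc, ← EE_add h]

theorem om_s1' (h : F4t r) {k : ℕ} (hk : k < 1152) :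
    getT TW k 1 < 1152 ∧ om r k * s1 r = om r (getT TW k 1) := by
  rw [← col1 k hk]
  exact om_s1 h hk

theorem prod_nf (h : F4t r) (l : List ℕ) (hl : ∀ i ∈ l, 1 ≤ i ∧ i ≤ 5) : ∀ k < 1152, ∀ v,
    om r k * EE r v * lp r l = om r (fl TW l k) * EE r (l.foldl (fun v g => stp g v) v) := by
  induction l with
  | nil => intro k _ v; simp [lp, fl]
  | cons a l ih =>
    intro k hk v
    have ha := hl a (by simp)
    have ih' := ih (fun i hi => hl i (by simp [hi]))
    rw [lp_cons, ← mul_assoc]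
    rcases Nat.eq_or_lt_of_le ha.1 with h1 | h1
    · subst h1
      obtain ⟨h2, h3⟩ := om_s1' h hk
      rw [mul_assoc (om r k), EE_r1 h, ← mul_assoc (om r k), h3, ih' _ h2]
      rfl
    · obtain ⟨h2, h3⟩ := om_edge h k hk a h1 ha.2
      rw [mul_assoc (om r k), EE_lin h h1 ha.2, ← mul_assoc (om r k), h3, ih' _ h2]
      have : stp a v = lin a v := by rw [stp, if_neg (by omega)]
      simp only [fl, List.foldl_cons, this]

/-- the extra relator `(ρ1 σ τ)^6` -/
def ext33 : List ℕ := (List.replicate 6 [1, 2, 3, 4, 3, 2, 5, 4, 3, 4, 5]).flatten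

/-- the relations of the group for `(3,3,0,0)`, letters `0, …, 5` -/
structure Rel33 (r : ℕ → G) : Prop extends F4t r where
  sq0 : r 0 * r 0 = 1
  comm0 : ∀ i, 2 ≤ i → i ≤ 5 → r 0 * r i = r i * r 0
  braid0 : (r 0 * r 1) ^ 3 = 1
  ext : lp r ext33 = 1

theorem EE_y0 (h : Rel33 r) : EE r (-6, 0, 3, 3) = 1 := by
  have h1 := prod_nf h.toF4t ext33 (by decide) 0 (by norm_num) 0
  have h2 : fl TW ext33 0 = 0 := by decide +kernel
  have h3 : ext33.foldl (fun v g => stp g v) (0 : Z4) = (-6, 0, 3, 3) := by decide +kernel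
  rw [h.ext, h2, h3, om_zero', EE_zero, one_mul, one_mul, one_mul] at h1
  exact h1.symm

theorem EE_orbit (h : F4t r) {v : Z4} (hv : EE r v = 1) {w : ℕ} (hw : w < 1152) {v' : Z4}
    (hc : (wdl WD w).foldl (fun v g => lin g v) v = v') : EE r v' = 1 := by
  have h1 := EE_fold h (wdl WD w) (word_letters w hw) v
  rw [hv, hc, one_mul] at h1
  exact mul_eq_left.1 h1.symm

/-- the lattice `3 (1 + i) H` -/
def inL (v : Z4) : Bool :=
  v.1 % 6 == 0 && v.2.1 % 3 == 0 && v.2.2.1 % 3 == 0 && v.2.2.2 % 3 == 0 &&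
    (v.2.1 + v.2.2.1 + v.2.2.2) % 6 == 0

theorem EE_L (h : Rel33 r) {v : Z4} (hv : inL v = true) : EE r v = 1 := by
  have h0 := EE_y0 h
  have g3 : EE r (0, 0, 3, 3) = 1 := EE_orbit h.toF4t h0 (w := 349) (by norm_num) (by decide +kernel)
  have g2 : EE r (0, 3, 3, 0) = 1 := EE_orbit h.toF4t h0 (w := 528) (by norm_num) (by decide +kernel)
  have g1 : EE r (6, 0, 0, 0) = 1 := by
    have a := EE_orbit h.toF4t h0 (w := 349) (v' := (0, 0, 3, 3)) (by norm_num) (by decide +kernel)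
    have b := EE_orbit h.toF4t h0 (w := 881) (v' := (6, 0, -3, -3)) (by norm_num) (by decide +kernel)
    have := EE_add h.toF4t (0, 0, 3, 3) (6, 0, -3, -3)
    rw [a, b, one_mul] at this
    exact this
  have g4 : EE r (0, 0, 0, 6) = 1 := by
    have a := EE_orbit h.toF4t h0 (w := 29) (v' := (-6, 3, 3, 6)) (by norm_num) (by decide +kernel)
    have b := EE_orbit h.toF4t h0 (w := 714) (v' := (6, -3, -3, 0)) (by norm_num) (by decide +kernel)
    have := EE_add h.toF4t (-6, 3, 3, 6) (6, -3, -3, 0)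
    rw [a, b, one_mul] at this
    exact this
  obtain ⟨v0, v1, v2, v3⟩ := v
  simp only [inL, Bool.and_eq_true, beq_iff_eq] at hv
  have e : ((v0, v1, v2, v3) : Z4) = (v0 / 6) • ((6, 0, 0, 0) : Z4) + (v1 / 3) • ((0, 3, 3, 0) : Z4) +
      ((v2 - v1) / 3) • ((0, 0, 3, 3) : Z4) + ((v3 - v2 + v1) / 6) • ((0, 0, 0, 6) : Z4) := by
    simp only [Prod.smul_mk, Prod.mk_add_mk, smul_eq_mul, Prod.mk.injEq]
    refine ⟨by omega, by omega, by omega, by omega⟩
  rw [e, EE_add h.toF4t, EE_add h.toF4t, EE_add h.toF4t, EE_zsmul h.toF4t, EE_zsmul h.toF4t,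
    EE_zsmul h.toF4t, EE_zsmul h.toF4t, g1, g2, g3, g4]
  simp

theorem EE_eq (h : Rel33 r) {v w : Z4} (hv : inL (v - w) = true) : EE r v = EE r w := by
  have := EE_add h.toF4t (v - w) w
  rw [EE_L h hv, one_mul, sub_add_cancel] at this
  exact this

/-- representatives of `H / 3 (1 + i) H` -/
def rep (x : ℕ) : Z4 :=
  (4 * ((x % 3 : ℕ) : ℤ) + 3 * ((x / 81 % 2 : ℕ) : ℤ), 4 * ((x / 3 % 3 : ℕ) : ℤ),
    4 * ((x / 9 % 3 : ℕ) : ℤ), 4 * ((x / 27 % 3 : ℕ) : ℤ) + 3 * ((x / 162 % 2 : ℕ) : ℤ))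

theorem chkA : ∀ x < 324, ∀ g, 1 ≤ g → g ≤ 5 → getT AX x g < 324 ∧
    inL (stp g (rep x) - rep (getT AX x g)) = true := by
  have h : (List.range 324).all (fun x => [1, 2, 3, 4, 5].all fun g =>
    Nat.ble (Nat.succ (getT AX x g)) 324 && inL (stp g (rep x) - rep (getT AX x g))) = true := by
    decide +kernel
  intro x hx g h1 h2
  have := List.all_eq_true.1 h x (List.mem_range.2 hx)
  have := List.all_eq_true.1 this g (by simp only [List.mem_cons, List.not_mem_nil, or_false]; omega)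
  rwa [Bool.and_eq_true, Nat.ble_eq, Nat.succ_le_iff] at this

theorem addX_eq (x y : ℕ) : addX x y = (x + y) % 3 + (3 * ((x / 3 + y / 3) % 3) +
    (9 * ((x / 9 + y / 9) % 3) + (27 * ((x / 27 + y / 27) % 3) + (81 * ((x / 81 + y / 81) % 2) +
      162 * ((x / 162 + y / 162) % 2))))) := rfl

theorem digits (A B C D E F : ℕ) (hA : A < 3) (hB : B < 3) (hC : C < 3) (hD : D < 3) (hE : E < 2)
    (hF : F < 2) {n : ℕ} (hn : n = A + (3 * B + (9 * C + (27 * D + (81 * E + 162 * F))))) :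
    n < 324 ∧ n % 3 = A ∧ n / 3 % 3 = B ∧ n / 9 % 3 = C ∧ n / 27 % 3 = D ∧ n / 81 % 2 = E ∧
      n / 162 % 2 = F := by
  refine ⟨by omega, by omega, by omega, by omega, by omega, by omega, by omega⟩

theorem addX_lt (x y : ℕ) : addX x y < 324 :=
  (digits _ _ _ _ _ _ (Nat.mod_lt (x + y) (by norm_num))
    (Nat.mod_lt (x / 3 + y / 3) (by norm_num)) (Nat.mod_lt (x / 9 + y / 9) (by norm_num))
    (Nat.mod_lt (x / 27 + y / 27) (by norm_num)) (Nat.mod_lt (x / 81 + y / 81) (by norm_num))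
    (Nat.mod_lt (x / 162 + y / 162) (by norm_num)) (addX_eq x y)).1

theorem addX_L (x y : ℕ) : inL (rep x + rep y - rep (addX x y)) = true := by
  obtain ⟨-, e0, e1, e2, e3, e4, e5⟩ := digits _ _ _ _ _ _ (Nat.mod_lt (x + y) (by norm_num))
    (Nat.mod_lt (x / 3 + y / 3) (by norm_num)) (Nat.mod_lt (x / 9 + y / 9) (by norm_num))
    (Nat.mod_lt (x / 27 + y / 27) (by norm_num)) (Nat.mod_lt (x / 81 + y / 81) (by norm_num))
    (Nat.mod_lt (x / 162 + y / 162) (by norm_num)) (addX_eq x y)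
  simp only [inL, rep, Prod.mk_add_mk, Prod.mk_sub_mk, Bool.and_eq_true, beq_iff_eq, e0, e1, e2, e3,
    e4, e5]
  have f0 : (x + y) % 3 = (x % 3 + y % 3) % 3 := Nat.add_mod _ _ _
  have f1 : (x / 3 + y / 3) % 3 = (x / 3 % 3 + y / 3 % 3) % 3 := Nat.add_mod _ _ _
  have f2 : (x / 9 + y / 9) % 3 = (x / 9 % 3 + y / 9 % 3) % 3 := Nat.add_mod _ _ _
  have f3 : (x / 27 + y / 27) % 3 = (x / 27 % 3 + y / 27 % 3) % 3 := Nat.add_mod _ _ _
  have f4 : (x / 81 + y / 81) % 2 = (x / 81 % 2 + y / 81 % 2) % 2 := Nat.add_mod _ _ _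
  have f5 : (x / 162 + y / 162) % 2 = (x / 162 % 2 + y / 162 % 2) % 2 := Nat.add_mod _ _ _
  rw [f0, f1, f2, f3, f4, f5]
  clear e0 e1 e2 e3 e4 e5 f0 f1 f2 f3 f4 f5
  generalize x % 3 = a0
  generalize y % 3 = b0
  generalize x / 3 % 3 = a1
  generalize y / 3 % 3 = b1
  generalize x / 9 % 3 = a2
  generalize y / 9 % 3 = b2
  generalize x / 27 % 3 = a3
  generalize y / 27 % 3 = b3
  generalize x / 81 % 2 = a4
  generalize y / 81 % 2 = b4
  generalize x / 162 % 2 = a5
  generalize y / 162 % 2 = b5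
  push_cast
  refine ⟨⟨⟨⟨?_, ?_⟩, ?_⟩, ?_⟩, ?_⟩
  · omega
  · omega
  · omega
  · omega
  · omega
theorem chkI : ∀ k < 1152, wl 24 (word D33 k) = wdl WD k ∧ inv D33 k < 1152 ∧
    fl TW (wdl WD (inv D33 k)) k = 0 := by
  have h : (List.range 1152).all (fun k => decide (wl 24 (word D33 k) = wdl WD k) &&
    (Nat.ble (Nat.succ (inv D33 k)) 1152 && Nat.beq (fl TW (wdl WD (inv D33 k)) k) 0)) = true := by
    decide +kernel
  intro k hk
  have := List.all_eq_true.1 h k (List.mem_range.2 hk)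
  rwa [Bool.and_eq_true, Bool.and_eq_true, decide_eq_true_eq, Nat.ble_eq, Nat.succ_le_iff,
    Nat.beq_eq] at this

theorem om5 (h : F4t r) : om r (getT TW 0 5) = r 5 := by
  have := (om_edge h 0 (by norm_num) 5 (by norm_num) (by norm_num)).2
  rwa [om_zero', one_mul, eq_comm] at this

theorem chk5_sound (h : Rel33 r) {k x : ℕ} (hk : k < 1152) (hx : x < 324)
    (hc : chk5 k x = true) :
    (om r k * EE r (rep x)) * r 5 = r 5 * (om r k * EE r (rep x)) := by
  rw [chk5, Sem.cnd_true, Nat.beq_eq, Nat.beq_eq, fol_eq, fol_eq, fol_eq] at hc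
  obtain ⟨h1, h2⟩ := hc
  have e5 : wl 24 5 = [5] := by decide +kernel
  rw [e5] at h1 h2
  have h1' : getT TW k 5 = mW (getT TW 0 5) k := by
    have e1 : getT TW 0 5 = 4 := by decide +kernel
    rw [mW, ← (chkI k hk).1, e1]
    exact h1
  have h2' : getT AX x 5 = x := h2
  have a1 := (om_edge h.toF4t k hk 5 (by norm_num) (by norm_num)).2
  have a2 := (mW_spec h.toF4t (k := getT TW 0 5) (by decide +kernel) hk).2
  rw [← h1', om5 h.toF4t, ← a1] at a2
  have a3 : EE r (rep x) * r 5 = r 5 * EE r (rep x) := by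
    rw [EE_lin h.toF4t (by norm_num) (by norm_num)]
    have := (chkA x hx 5 (by norm_num) (by norm_num)).2
    rw [h2'] at this
    exact congrArg _ (EE_eq h this)
  rw [mul_assoc, a3, ← mul_assoc, ← a2, mul_assoc]

/-- the tables are correct for `(3,3,0,0)` -/
noncomputable def sem33 (h : Rel33 r) : Sem D33 G where
  s := r 0
  r := r
  u1 := s1 r
  om := om r
  e := fun x => EE r (rep x)
  c := r 5
  s_sq := h.sq0
  r1_sq := h.sq 1 le_rfl (by norm_num)
  s_comm := h.comm0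
  polyg := h.braid0
  pol_pos := by decide
  nW_pos := by decide
  nX_pos := by decide
  om_zero := om_zero'
  e_zero := by
    show EE r (rep 0) = 1
    exact EE_zero
  om_mul := fun k hk i h2 h5 => om_edge h.toF4t k hk i h2 h5
  om_one := fun k hk => om_s1' h.toF4t hk
  e_mul := by
    intro x hx i h2 h5
    obtain ⟨a, b⟩ := chkA x hx i (by omega) h5
    refine ⟨a, ?_⟩
    rw [EE_lin h.toF4t h2 h5]
    have e : stp i (rep x) = lin i (rep x) := by rw [stp, if_neg (by omega)]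
    rw [e] at b
    exact congrArg _ (EE_eq h b)
  e_one := by
    intro x hx
    obtain ⟨a, b⟩ := chkA x hx 1 le_rfl (by norm_num)
    refine ⟨a, ?_⟩
    rw [EE_r1 h.toF4t]
    exact congrArg _ (EE_eq h b)
  word_mem := by
    intro k hk i hi
    rw [(chkI k hk).1] at hi
    exact word_letters k hk i hi
  word_prod := by
    intro k hk
    rw [(chkI k hk).1]
    rfl
  inv_lt := fun k hk => (chkI k hk).2.1
  inv_mul := by
    intro k hk
    have h1 := (mW_spec h.toF4t hk (chkI k hk).2.1).2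
    rw [h1, mW, (chkI k hk).2.2, om_zero']
  add_lt := fun x y _ _ => addX_lt x y
  e_add := by
    intro x y _ _
    rw [← EE_add h.toF4t]
    exact EE_eq h (addX_L x y)
  chk0 := fun k x hk hx hc => chk5_sound h hk hx hc
  s_c := by
    rw [h.comm0 5 (by norm_num) le_rfl, mul_assoc, h.sq0, mul_one]

end Pool.Agent.Lib.MP_c2d01e_co.Dce
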