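import Pool.Agent.Lib.MP_c2d01e_co.Dce.Tab2

/-!
# The calculus of the affine group of type `{3,3,4,3}`

For a group `G` with elements `r 1, …, r 5` satisfying the Coxeter relations of type `{3,3,4,3}`:
`om r k` is the `k`-th element of `⟨r 2, …, r 5⟩` (1152 codes), and `EE r v`, `v ∈ ℤ⁴`, are the
translations.
-/

set_option autoImplicit false
set_option maxRecDepth 100000

namespace Pool.Agent.Lib.MP_c2d01e_co.Dce

variable {G : Type*} [Group G]

/-- the Coxeter relations of type `{3,3,4,3}` on the letters `1, …, 5` -/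
structure F4t (r : ℕ → G) : Prop where
  sq : ∀ i, 1 ≤ i → i ≤ 5 → r i * r i = 1
  cox : ∀ i j, 1 ≤ i → i ≤ 5 → 1 ≤ j → j ≤ 5 → i ≠ j → (r i * r j) ^ cx i j = 1

/-- follow a list of letters in a table -/
noncomputable def fl (T : ℕ) (l : List ℕ) (k : ℕ) : ℕ := l.foldl (fun k i => getT T k i) k

/-- the word of the reflection `s1` -/
def w1 : List ℕ := [2, 3, 4, 3, 2, 5, 4, 3, 4, 5, 2, 3, 4, 3, 2]

/-- the product of a list of letters -/
def lp (r : ℕ → G) (l : List ℕ) : G := (l.map r).prod

/-- the reflection `s1` -/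
def s1 (r : ℕ → G) : G := lp r w1

/-- the element number `k` -/
noncomputable def om (r : ℕ → G) (k : ℕ) : G := lp r (wdl WD k)

/-- product of codes -/
noncomputable def mW (k l : ℕ) : ℕ := fl TW (wdl WD l) k

/-- smallest element of the coset `W(B3) w` -/
noncomputable def rw' (w : ℕ) : ℕ := Nat.land (Nat.shiftRight 0x33802e2033803380338028602e202e202e203380338033803380338028602270286028602e202e202e202e203380338033802e203380338033803380227028601c901c8022702860227028602e20286028602e202e202e2033803380338033802e202e203380338033802e2033801c901c80227017001c9016f01c801c90227028601c8022702860286022702860227028602e2028602e202e203380338033802e20338028602e202e20338033802e20338033802e2017001c9016f01c801c90170011d016f011c016f017001c901c901c8022701c801c90286022701c802270227028601c80227028602860227028602e202e20338033802e20338033802e20227028602e20286033802e20338033802e202e202860170011d016f011c016f017001c90170011d00d3011c00d5011d011c016f017001c9016f01c801c9016f017001c901c8022701c801c901c901c80227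01c801c90286022701c802270227028602e20286033802e20338033802e202e2028601c8022702860286022702e20338033802e202e20286028602270170011d00d3011c00d5011d011c016f01700170011d00d3009400d5009600d5011c00d3011d0170016f011c016f017001c9011d011c016f017001c801c9016f01c901c9016f01c801c9016f017001c901c8022701c801c901c8022702860286022702e20338033802e202e202860286022701c801c90286022701c80227033802e202e2028602860227022701c80170011d00d3009400d5009600d5011c00d3011d0170011d00d3009400630061009600d500d5009600d30094011d0170011c00d5011d011c016f0170011c00d3011d0170016f01c9011c016f016f011c016f017001c9011d011c016f017001c801c9016f01c901c801c90286022701c80227033802e202e2028602860227022701c8016f017001c901c8022701c801c902e2028602860227022701c801c901c8011d00d3009400630061009600d500d5009600d30094011d017000d3009400630061003a003c00d50096009600630094006100d3011d00d5009600d5011c00d3011d017000d30094011d0170011c016f00d5011c011c00d5011d011c016f0170011c00d3011d0170016f01c9011c016f016f017001c901c8022701c801c902e2028602860227022701c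801c901c8011d011c016f017001c801c9016f01c902860227022701c801c901c80170016f00d3009400630061003a003c00d50096009600630094006100d3011d009400630061003a003c00200021009600630063003c0061003a009400d3009600d500d5009600d30094011d01700094006100d3011d00d5011c009600d500d5009600d5011c00d3011d017000d30094011d0170011c016f00d5011c011d011c016f017001c801c9016f01c902860227022701c801c901c80170016f011c00d3011d0170016f01c9011c016f022701c801c901c80170016f011d011c009400630061003a003c00200021009600630063003c0061003a009400d300630061003a003c00200021000f00210063003c003c00200061003a0063009400d50096009600630094006100d3011d0061003a009400d3009600d5009600d5009600d500d5009600d30094011d01700094006100d3011d00d5011c009600d5011c00d3011d0170016f01c9011c016f022701c801c901c80170016f011d011c00d30094011d0170011c016f00d5011c01c901c80170016f011d011c00d300630061003a003c00200021000f00210063003c003c00200061003a00630094003a003c00200021000f00210005000f003c002000210020003c003a00630061009600630063003c0061003a009400d30061003a00630094009600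d5009600d50096009600630094006100d3011d0061003a009400d3009600d5009600d500d30094011d0170011c016f00d5011c01c901c80170016f011d011c00d30094006100d3011d00d5011c009600d50170016f011d011c00d30094003a003c00200021000f00210005000f003c002000210020003c003a0063006100200021000f00210005000f00010005002100200021000f0020003a003c0063003c003c00200061003a00630094003c003a0063006100960063009600630063003c0061003a009400d30061003a00630094009600d500960094006100d3011d00d5011c009600d50170016f011d011c00d300940061003a009400d3009600d5009600d5011d011c00d30094006100200021000f00210005000f00010005002100200021000f0020003a003c000f00210005000f00010005000000010021000f000f000500200021003c002000210020003c003a006300610020003a003c0063003c0063003c003c00200061003a00630094003c003a00630061009600630061003a009400d3009600d5009600d5011d011c00d3009400610061003a00630094009600d5009600d300940061003a000f00210005000f00010005000000010021000f000f0005002000210005000f000100050000000100000001000f00050005000f0021002100200021000f0020003a003c002000210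03c0020003c002000210020003c003a006300610020003a003c0063003c0061003a00630094009600d5009600d300940061003a003c003a006300610096006300940061003a0005000f000100050000000100000001000f00050005000f00210001000500000001000000010000000500010005000f0021000f000f000500200021000f00210020002100200021000f0020003a003c00200021003c0020003c003a006300610096006300940061003a0020003a003c0063003c0061003a0001000500000001000000010000000500010005000f000000010000000100000000000100010005000f00050005000f00210005000f0021000f000f000500200021000f002100200020003a003c0063003c0061003a00200021003c0020003a0000000100000001000000000001000100050000000100000000000000010001000500010005000f0005000f00050005000f00210005000f00200021003c0020003a000f00210020000000010000000000000001000100000000000000000001000100010005000500010005000f0005000f002100200005000f00000000000000000001000000000000000100010001000100050005000f000500000000000000000000000100010001000500000000000000010000 (Nat.mul 16 w)) 65535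

theorem lp_nil (r : ℕ → G) : lp r [] = 1 := rfl

theorem lp_cons (r : ℕ → G) (a : ℕ) (l : List ℕ) : lp r (a :: l) = r a * lp r l := by
  simp [lp]

theorem lp_append (r : ℕ → G) (l l' : List ℕ) : lp r (l ++ l') = lp r l * lp r l' := by
  simp [lp]

theorem flatten_replicate_prod (r : ℕ → G) (l : List ℕ) (m : ℕ) :
    (((List.replicate m l).flatten).map r).prod = (l.map r).prod ^ m := by
  induction m with
  | zero => simp
  | succ m ih => rw [List.replicate_succ, List.flatten_cons, List.map_append, List.prod_append, ih,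
      pow_succ']

theorem coxRel_prod {r : ℕ → G} (h : F4t r) {a : ℕ} (ha : 1 ≤ a) (g h' : ℕ) :
    ((coxRel a g h').map r).prod = 1 := by
  rw [coxRel]
  split_ifs with hc
  · rw [flatten_replicate_prod]
    have hcx : cx g h' = cx h' g := by
      unfold cx
      split_ifs <;> omega
    have := h.cox h' g (by omega) (by omega) (by omega) (by omega) (Ne.symm hc.2.2.2.2)
    rw [hcx]
    simpa using this
  · rfl

theorem coxRel_ok (a g h' : ℕ) : okRel a (coxRel a g h') = true := by
  rw [coxRel]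
  split_ifs with hc
  · rw [okRel, List.all_eq_true]
    intro x hx
    rw [List.mem_flatten] at hx
    obtain ⟨l, hl, hx⟩ := hx
    rw [List.mem_replicate] at hl
    rw [hl.2] at hx
    simp only [List.mem_cons, List.not_mem_nil, or_false] at hx
    rw [Bool.and_eq_true, Nat.ble_eq, Nat.ble_eq]
    omega
  · rfl

theorem relsW_mem (i : ℕ) : relsW.getD i [] = [] ∨ ∃ g h, relsW.getD i [] = coxRel 2 g h := by
  rw [List.getD_eq_getElem?_getD]
  rcases hi : relsW[i]? with _ | l
  · left; rfl
  · right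
    have := List.mem_of_getElem? hi
    rw [relsW, List.mem_map] at this
    obtain ⟨j, -, rfl⟩ := this
    exact ⟨_, _, rfl⟩

variable {r : ℕ → G}

theorem om_edge (h : F4t r) : ∀ k < 1152, ∀ g, 2 ≤ g → g ≤ 5 →
    getT TW k g < 1152 ∧ om r k * r g = om r (getT TW k g) := by
  have := edges_of_chkAll (r := r) (u := fun _ => 1) (fun g h1 h2 => h.sq g (by omega) h2)
    (fun _ _ _ => by simp) (fun i => ?_) (fun i => ?_) (fun i => ?_) chkW
  · intro k hk g h1 h2
    obtain ⟨h3, h4⟩ := this k hk g h1 h2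
    refine ⟨h3, ?_⟩
    simpa [Ew, om, lp] using h4
  · rcases relsW_mem i with h' | ⟨g, h', h''⟩
    · rw [h']; rfl
    · rw [h'']; exact coxRel_ok 2 _ _
  · rcases relsW_mem i with h' | ⟨g, h', h''⟩
    · rw [h']; rfl
    · rw [h'']; exact coxRel_prod h (by norm_num) _ _
  · simp

theorem fl_om (h : F4t r) (l : List ℕ) (hl : ∀ i ∈ l, 2 ≤ i ∧ i ≤ 5) : ∀ k < 1152,
    fl TW l k < 1152 ∧ om r k * lp r l = om r (fl TW l k) := by
  induction l with
  | nil => intro k hk; simp [fl, lp, hk]
  | cons a l ih =>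
    intro k hk
    have ha := hl a (by simp)
    obtain ⟨h1, h2⟩ := om_edge h k hk a ha.1 ha.2
    obtain ⟨h3, h4⟩ := ih (fun i hi => hl i (by simp [hi])) _ h1
    refine ⟨h3, ?_⟩
    rw [lp_cons, ← mul_assoc, h2, h4]
    rfl

theorem om_zero' : om r 0 = 1 := by
  have : wdl WD 0 = [] := by decide +kernel
  rw [om, this, lp_nil]

theorem word_letters : ∀ k < 1152, ∀ i ∈ wdl WD k, 2 ≤ i ∧ i ≤ 5 := by
  have h : (List.range 1152).all (fun k => (wdl WD k).all fun i => Nat.ble 2 i && Nat.ble i 5) =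
    true := by decide +kernel
  intro k hk i hi
  have := List.all_eq_true.1 h k (List.mem_range.2 hk)
  have := List.all_eq_true.1 this i hi
  simpa using this

theorem mW_spec (h : F4t r) {k l : ℕ} (hk : k < 1152) (hl : l < 1152) :
    mW k l < 1152 ∧ om r k * om r l = om r (mW k l) :=
  fl_om h _ (word_letters l hl) k hk

theorem w1_ok : ∀ i ∈ w1, 2 ≤ i ∧ i ≤ 5 := by decide

theorem om_s1 (h : F4t r) {k : ℕ} (hk : k < 1152) :
    fl TW w1 k < 1152 ∧ om r k * s1 r = om r (fl TW w1 k) := fl_om h _ w1_ok k hk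

/-- an identity between words in the letters `2, …, 5` -/
theorem word_eq (h : F4t r) (l l' : List ℕ) (hc : (l.all (fun i => Nat.ble 2 i && Nat.ble i 5) &&
    l'.all (fun i => Nat.ble 2 i && Nat.ble i 5) && Nat.beq (fl TW l 0) (fl TW l' 0)) = true) :
    lp r l = lp r l' := by
  simp only [Bool.and_eq_true, List.all_eq_true, Nat.beq_eq, Nat.ble_eq] at hc
  have h1 := (fl_om h l hc.1.1 0 (by norm_num)).2
  have h2 := (fl_om h l' hc.1.2 0 (by norm_num)).2
  rw [om_zero', one_mul] at h1 h2
  rw [h1, h2, hc.2]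

theorem s1_sq (h : F4t r) : s1 r * s1 r = 1 := by
  rw [s1, ← lp_append, ← lp_nil r]
  exact word_eq h _ _ (by decide +kernel)

theorem s1_comm (h : F4t r) {j : ℕ} (h3 : 3 ≤ j) (h5 : j ≤ 5) : r j * s1 r = s1 r * r j := by
  have h1 : ∀ l, lp r (j :: l) = r j * lp r l := fun l => lp_cons r j l
  have h2 : lp r (w1 ++ [j]) = s1 r * r j := by rw [lp_append, lp_cons, lp_nil, mul_one]; rfl
  rw [s1, ← h1, ← s1, ← h2]
  have : j = 3 ∨ j = 4 ∨ j = 5 := by omega
  rcases this with rfl | rfl | rfl <;> exact word_eq h _ _ (by decide +kernel)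

theorem comm_of_cox2 (h : F4t r) {i j : ℕ} (hi : 1 ≤ i) (hi' : i ≤ 5) (hj : 1 ≤ j) (hj' : j ≤ 5)
    (hij : i ≠ j) (h2 : cx i j = 2) : r i * r j = r j * r i := by
  have h1 := h.cox i j hi hi' hj hj' hij
  rw [h2, pow_two] at h1
  have a1 := h.sq i hi hi'
  have a2 := h.sq j hj hj'
  calc r i * r j = r i * r j * (r i * r j * (r i * r j))⁻¹ := by rw [h1]; simp
    _ = (r j)⁻¹ * (r i)⁻¹ := by group
    _ = r j * r i := by rw [inv_eq_of_mul_eq_one_left a1, inv_eq_of_mul_eq_one_left a2]

/-- the translation by `1` -/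
def e1 (r : ℕ → G) : G := s1 r * r 1

theorem e1_comm (h : F4t r) {j : ℕ} (h3 : 3 ≤ j) (h5 : j ≤ 5) : r j * e1 r = e1 r * r j := by
  have h1 : r 1 * r j = r j * r 1 := by
    refine comm_of_cox2 h (by norm_num) (by norm_num) (by omega) h5 (by omega) ?_
    have : j = 3 ∨ j = 4 ∨ j = 5 := by omega
    rcases this with rfl | rfl | rfl <;> rfl
  rw [e1, ← mul_assoc, s1_comm h h3 h5, mul_assoc, ← h1, mul_assoc]

/-- the translation by `1 · w` -/
noncomputable def ev (r : ℕ → G) (w : ℕ) : G := (om r w)⁻¹ * e1 r * om r w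

theorem ev_left (h : F4t r) {j w : ℕ} (h3 : 3 ≤ j) (h5 : j ≤ 5) (hw : w < 1152) :
    ev r (mW (getT TW 0 j) w) = ev r w := by
  have h1 := om_edge h 0 (by norm_num) j (by omega) h5
  rw [om_zero', one_mul] at h1
  rw [ev, ← (mW_spec h h1.1 hw).2, ← h1.2]
  calc (r j * om r w)⁻¹ * e1 r * (r j * om r w)
      = (om r w)⁻¹ * ((r j)⁻¹ * (e1 r * r j)) * om r w := by group
    _ = _ := by rw [← e1_comm h h3 h5, ev]; group

theorem chkRW : ∀ w < 1152, rw' w = w ∨ ∃ j ∈ [3, 4, 5], mW (getT TW 0 j) w < w ∧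
    rw' (mW (getT TW 0 j) w) = rw' w := by
  have h : (List.range 1152).all (fun w => Nat.beq (rw' w) w || [3, 4, 5].any fun j =>
    Nat.ble (Nat.succ (mW (getT TW 0 j) w)) w && Nat.beq (rw' (mW (getT TW 0 j) w)) (rw' w)) =
    true := by decide +kernel
  intro w hw
  have := List.all_eq_true.1 h w (List.mem_range.2 hw)
  rw [Bool.or_eq_true, Nat.beq_eq, List.any_eq_true] at this
  refine this.imp id ?_
  rintro ⟨j, hj, h1⟩
  rw [Bool.and_eq_true, Nat.ble_eq, Nat.beq_eq, Nat.succ_le_iff] at h1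
  exact ⟨j, hj, h1⟩

theorem ev_rw (h : F4t r) (w : ℕ) : w < 1152 → ev r (rw' w) = ev r w := by
  induction w using Nat.strong_induction_on with
  | _ w ih =>
    intro hw
    rcases chkRW w hw with h1 | ⟨j, hj, h1, h2⟩
    · rw [h1]
    · have hj' : 3 ≤ j ∧ j ≤ 5 := by
        simp only [List.mem_cons, List.not_mem_nil, or_false] at hj; omega
      rw [← h2, ih _ h1 (by omega), ev_left h hj'.1 hj'.2 hw]

theorem ev_mul (h : F4t r) {w l : ℕ} (hw : w < 1152) (hl : l < 1152) :
    ev r (mW w l) = (om r l)⁻¹ * ev r w * om r l := by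
  rw [ev, ev, ← (mW_spec h hw hl).2]
  group

/-- check of a negative -/
noncomputable def chkN (w a b : ℕ) : Bool :=
  Nat.ble (Nat.succ w) 1152 && (Nat.beq (rw' w) a && Nat.beq (rw' (mW 824 w)) b)

/-- check of a triple -/
noncomputable def chkT (x A B C : ℕ) : Bool :=
  Nat.ble (Nat.succ x) 1152 && (Nat.beq (rw' (mW 824 x)) A && (Nat.beq (rw' (mW 693 x)) B &&
    Nat.beq (rw' (mW 1 x)) C))

theorem om_824 (h : F4t r) : om r 824 = s1 r := by
  exact word_eq h _ _ (by decide +kernel)

theorem neg_of (h : F4t r) {w a b : ℕ} (hc : chkN w a b = true) : ev r b = (ev r a)⁻¹ := by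
  simp only [chkN, Bool.and_eq_true, Nat.ble_eq, Nat.beq_eq, Nat.succ_le_iff] at hc
  obtain ⟨hw, h1, h2⟩ := hc
  have h3 := (mW_spec h (k := 824) (by norm_num) hw)
  rw [← h2, ev_rw h _ h3.1, ← h1, ev_rw h _ hw, ev, ← h3.2, om_824 h, ev]
  have h4 : (s1 r)⁻¹ * e1 r * s1 r = (e1 r)⁻¹ := by
    rw [e1, mul_inv_rev, inv_eq_of_mul_eq_one_left (s1_sq h),
      inv_eq_of_mul_eq_one_left (h.sq 1 le_rfl (by norm_num)), ← mul_assoc, s1_sq h, one_mul]
  calc (s1 r * om r w)⁻¹ * e1 r * (s1 r * om r w)
      = (om r w)⁻¹ * ((s1 r)⁻¹ * e1 r * s1 r) * om r w := by group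
    _ = _ := by rw [h4]; group

theorem base_triple (h : F4t r) : ev r 824 * ev r 693 * ev r 1 = 1 := by
  have e824 : om r 824 = r 2 * (s1 r * r 2) * (s1 r * r 2) := by
    have : lp r (2 :: (w1 ++ 2 :: (w1 ++ [2]))) = r 2 * (s1 r * r 2) * (s1 r * r 2) := by
      simp only [lp_cons, lp_append, lp_nil, s1]
      group
    rw [← this]
    exact word_eq h _ _ (by decide +kernel)
  have e693 : om r 693 = r 2 * (s1 r * r 2) := by
    have : lp r (2 :: (w1 ++ [2])) = r 2 * (s1 r * r 2) := by
      simp only [lp_cons, lp_append, lp_nil, s1]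
      group
    rw [← this]
    exact word_eq h _ _ (by decide +kernel)
  have e1' : om r 1 = r 2 := by
    have : lp r [2] = r 2 := by simp [lp]
    rw [← this]
    exact word_eq h _ _ (by decide +kernel)
  have ht : (s1 r * r 2) * (s1 r * r 2) * (s1 r * r 2) = 1 := by
    have : lp r (w1 ++ 2 :: (w1 ++ 2 :: (w1 ++ [2]))) =
        (s1 r * r 2) * (s1 r * r 2) * (s1 r * r 2) := by
      simp only [lp_cons, lp_append, lp_nil, s1]
      group
    rw [← this, ← lp_nil r]
    exact word_eq h _ _ (by decide +kernel)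
  have h12 : (r 1 * r 2) * (r 1 * r 2) * (r 1 * r 2) = 1 := by
    have := h.cox 1 2 (by norm_num) (by norm_num) (by norm_num) (by norm_num) (by norm_num)
    rw [show cx 1 2 = 3 from rfl, pow_succ, pow_succ, pow_one] at this
    exact this
  have hte : (s1 r * r 2) * ((r 2)⁻¹ * e1 r * r 2) = r 1 * r 2 := by
    rw [e1]
    calc s1 r * r 2 * ((r 2)⁻¹ * (s1 r * r 1) * r 2) = (s1 r * s1 r) * r 1 * r 2 := by group
      _ = _ := by rw [s1_sq h, one_mul]
  rw [ev, ev, ev, e824, e693, e1']
  set t := s1 r * r 2 with htd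
  set f := (r 2)⁻¹ * e1 r * r 2 with hf
  calc (r 2 * t * t)⁻¹ * e1 r * (r 2 * t * t) * ((r 2 * t)⁻¹ * e1 r * (r 2 * t)) * f
      = (t * t)⁻¹ * f * (t * t) * (t⁻¹ * f * t) * f := by rw [hf]; group
    _ = (t * t * t)⁻¹ * ((t * f) * (t * f) * (t * f)) := by group
    _ = 1 := by rw [ht, hte, h12]; simp

theorem triple (h : F4t r) {x A B C : ℕ} (hc : chkT x A B C = true) :
    ev r A * ev r B * ev r C = 1 := by
  simp only [chkT, Bool.and_eq_true, Nat.ble_eq, Nat.beq_eq, Nat.succ_le_iff] at hc
  obtain ⟨hx, h1, h2, h3⟩ := hc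
  rw [← h1, ← h2, ← h3, ev_rw h _ (mW_spec h (by norm_num) hx).1,
    ev_rw h _ (mW_spec h (by norm_num) hx).1, ev_rw h _ (mW_spec h (by norm_num) hx).1,
    ev_mul h (by norm_num) hx, ev_mul h (by norm_num) hx, ev_mul h (by norm_num) hx]
  calc (om r x)⁻¹ * ev r 824 * om r x * ((om r x)⁻¹ * ev r 693 * om r x) *
        ((om r x)⁻¹ * ev r 1 * om r x)
      = (om r x)⁻¹ * (ev r 824 * ev r 693 * ev r 1) * om r x := by group
    _ = 1 := by rw [base_triple h]; group

theorem triple_A (h : F4t r) {x A B C : ℕ} (hc : chkT x A B C = true) :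
    ev r A = (ev r B * ev r C)⁻¹ := by
  have := triple h hc
  rw [mul_assoc] at this
  exact eq_inv_of_mul_eq_one_left this

theorem triple_C (h : F4t r) {x A B C : ℕ} (hc : chkT x A B C = true) :
    ev r C = (ev r A * ev r B)⁻¹ :=
  eq_inv_of_mul_eq_one_right (triple h hc)

theorem triple_B (h : F4t r) {x A B C : ℕ} (hc : chkT x A B C = true) :
    ev r B = (ev r C * ev r A)⁻¹ := by
  have := triple h hc
  have h1 : ev r B = (ev r A)⁻¹ * (ev r A * ev r B * ev r C) * (ev r C)⁻¹ := by group
  rw [h1, this]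
  group

theorem comm_of (h : F4t r) {p q n m x1 x2 w : ℕ} (hc : (chkT x1 p q n && (chkT x2 q p n &&
    chkN w n m)) = true) : Commute (ev r p) (ev r m) := by
  simp only [Bool.and_eq_true] at hc
  obtain ⟨h1, h2, h3⟩ := hc
  have e1 := triple_C h h1
  have e2 := triple_C h h2
  have e3 := neg_of h h3
  rw [e3]
  have e4 : ev r p * ev r q = ev r q * ev r p := by
    have := e1.symm.trans e2
    exact inv_injective this
  rw [e1, inv_inv]
  have : Commute (ev r p) (ev r q) := e4
  exact (Commute.refl _).mul_right this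

theorem comm_ba (h : F4t r) : Commute (ev r 58) (ev r 1) :=
  comm_of h (p := 58) (q := 33) (n := 738) (m := 1) (x1 := 924) (x2 := 923) (w := 738) (by decide +kernel)

theorem comm_ca (h : F4t r) : Commute (ev r 97) (ev r 1) :=
  comm_of h (p := 97) (q := 15) (n := 738) (m := 1) (x1 := 849) (x2 := 988) (w := 738) (by decide +kernel)

theorem comm_da (h : F4t r) : Commute (ev r 148) (ev r 1) :=
  comm_of h (p := 148) (q := 5) (n := 738) (m := 1) (x1 := 767) (x2 := 1043) (w := 738) (by decide +kernel)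

theorem comm_c_wi (h : F4t r) : Commute (ev r 97) (ev r 33) :=
  comm_of h (p := 97) (q := 99) (n := 456) (m := 33) (x1 := 674) (x2 := 672) (w := 456) (by decide +kernel)

theorem comm_d_wi (h : F4t r) : Commute (ev r 148) (ev r 33) :=
  comm_of h (p := 148) (q := 60) (n := 456) (m := 33) (x1 := 580) (x2 := 762) (w := 456) (by decide +kernel)

theorem comm_d_wj (h : F4t r) : Commute (ev r 148) (ev r 15) :=
  comm_of h (p := 148) (q := 32) (n := 551) (m := 15) (x1 := 675) (x2 := 846) (w := 551) (by decide +kernel)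


/-- `i - ω` -/
theorem ev58 (h : F4t r) : ev r 58 = ev r 1 * (ev r 33)⁻¹ := by
  have h1 := triple_A h (x := 924) (A := 58) (B := 33) (C := 738) (by decide +kernel)
  have h2 := neg_of h (w := 1) (a := 1) (b := 738) (by decide +kernel)
  rw [h1, h2, mul_inv_rev, inv_inv]

theorem ev97 (h : F4t r) : ev r 97 = ev r 1 * (ev r 15)⁻¹ := by
  have h1 := triple_A h (x := 849) (A := 97) (B := 15) (C := 738) (by decide +kernel)
  have h2 := neg_of h (w := 1) (a := 1) (b := 738) (by decide +kernel)
  rw [h1, h2, mul_inv_rev, inv_inv]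

theorem comm_cb (h : F4t r) : Commute (ev r 97) (ev r 58) := by
  rw [ev58 h]
  exact (comm_ca h).mul_right (comm_c_wi h).inv_right

theorem comm_db (h : F4t r) : Commute (ev r 148) (ev r 58) := by
  rw [ev58 h]
  exact (comm_da h).mul_right (comm_d_wi h).inv_right

theorem comm_dc (h : F4t r) : Commute (ev r 148) (ev r 97) := by
  rw [ev97 h]
  exact (comm_da h).mul_right (comm_d_wj h).inv_right

/-- vectors -/
abbrev Z4 := ℤ × ℤ × ℤ × ℤ

/-- the translation by `v` -/
noncomputable def EE (r : ℕ → G) (v : Z4) : G :=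
  ev r 1 ^ v.1 * ev r 58 ^ v.2.1 * ev r 97 ^ v.2.2.1 * ev r 148 ^ v.2.2.2

theorem EE_add (h : F4t r) (v w : Z4) : EE r (v + w) = EE r v * EE r w := by
  obtain ⟨v0, v1, v2, v3⟩ := v
  obtain ⟨w0, w1, w2, w3⟩ := w
  have c01 : Commute (ev r 58 ^ v1) (ev r 1 ^ w0) := (comm_ba h).zpow_zpow _ _
  have c02 : Commute (ev r 97 ^ v2) (ev r 1 ^ w0) := (comm_ca h).zpow_zpow _ _
  have c03 : Commute (ev r 148 ^ v3) (ev r 1 ^ w0) := (comm_da h).zpow_zpow _ _
  have c12 : Commute (ev r 97 ^ v2) (ev r 58 ^ w1) := (comm_cb h).zpow_zpow _ _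
  have c13 : Commute (ev r 148 ^ v3) (ev r 58 ^ w1) := (comm_db h).zpow_zpow _ _
  have c23 : Commute (ev r 148 ^ v3) (ev r 97 ^ w2) := (comm_dc h).zpow_zpow _ _
  simp only [EE, Prod.mk_add_mk, zpow_add]
  generalize ev r 1 ^ v0 = a0 at *
  generalize ev r 1 ^ w0 = b0 at *
  generalize ev r 58 ^ v1 = a1 at *
  generalize ev r 58 ^ w1 = b1 at *
  generalize ev r 97 ^ v2 = a2 at *
  generalize ev r 97 ^ w2 = b2 at *
  generalize ev r 148 ^ v3 = a3 at *
  generalize ev r 148 ^ w3 = b3 at *
  have k1 : a1 * a2 * a3 * b0 = b0 * (a1 * a2 * a3) :=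
    (((c01.mul_left c02).mul_left c03) : Commute (a1 * a2 * a3) b0)
  have k2 : a2 * a3 * b1 = b1 * (a2 * a3) := ((c12.mul_left c13) : Commute (a2 * a3) b1)
  have k3 : a3 * b2 = b2 * a3 := c23
  calc a0 * b0 * (a1 * b1) * (a2 * b2) * (a3 * b3)
      = a0 * (b0 * (a1 * (b1 * (a2 * ((b2 * a3) * b3))))) := by group
    _ = a0 * (b0 * (a1 * ((b1 * (a2 * a3)) * (b2 * b3)))) := by rw [← k3]; group
    _ = a0 * ((b0 * (a1 * a2 * a3)) * (b1 * (b2 * b3))) := by rw [← k2]; group
    _ = a0 * a1 * a2 * a3 * (b0 * b1 * b2 * b3) := by rw [← k1]; group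

theorem EE_zero : EE r 0 = 1 := by simp [EE]

theorem EE_neg (h : F4t r) (v : Z4) : EE r (-v) = (EE r v)⁻¹ := by
  apply eq_inv_of_mul_eq_one_left
  rw [← EE_add h, neg_add_cancel, EE_zero]

theorem EE_zsmul (h : F4t r) (n : ℤ) (v : Z4) : EE r (n • v) = EE r v ^ n := by
  induction n using Int.induction_on with
  | zero => simp [EE_zero]
  | succ n ih => rw [add_smul, one_smul, EE_add h, ih, zpow_add_one]
  | pred n ih => rw [sub_smul, one_smul, sub_eq_add_neg, EE_add h, ih, EE_neg h, zpow_sub_one]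

theorem evE_1 (h : F4t r) : ev r 1 = EE r (1, 0, 0, 0) := by
  have _ := h; simp [EE]

theorem evE_58 (h : F4t r) : ev r 58 = EE r (0, 1, 0, 0) := by
  have _ := h; simp [EE]

theorem evE_97 (h : F4t r) : ev r 97 = EE r (0, 0, 1, 0) := by
  have _ := h; simp [EE]

theorem evE_148 (h : F4t r) : ev r 148 = EE r (0, 0, 0, 1) := by
  have _ := h; simp [EE]

theorem evE_738 (h : F4t r) : ev r 738 = EE r (-1, 0, 0, 0) := by
  have := neg_of h (w := 1) (a := 1) (b := 738) (by decide +kernel)
  rw [this, evE_1 h, ← EE_neg h]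
  rfl

theorem evE_368 (h : F4t r) : ev r 368 = EE r (0, -1, 0, 0) := by
  have := neg_of h (w := 58) (a := 58) (b := 368) (by decide +kernel)
  rw [this, evE_58 h, ← EE_neg h]
  rfl

theorem evE_285 (h : F4t r) : ev r 285 = EE r (0, 0, -1, 0) := by
  have := neg_of h (w := 97) (a := 97) (b := 285) (by decide +kernel)
  rw [this, evE_97 h, ← EE_neg h]
  rfl

theorem evE_211 (h : F4t r) : ev r 211 = EE r (0, 0, 0, -1) := by
  have := neg_of h (w := 148) (a := 148) (b := 211) (by decide +kernel)
  rw [this, evE_148 h, ← EE_neg h]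
  rfl

theorem evE_646 (h : F4t r) : ev r 646 = EE r (-1, 0, 0, 1) := by
  have := triple_C h (x := 1064) (A := 1) (B := 211) (C := 646) (by decide +kernel)
  rw [this, evE_1 h, evE_211 h, ← EE_add h, ← EE_neg h]
  rfl

theorem evE_5 (h : F4t r) : ev r 5 = EE r (1, 0, 0, -1) := by
  have := neg_of h (w := 646) (a := 646) (b := 5) (by decide +kernel)
  rw [this, evE_646 h, ← EE_neg h]
  rfl

theorem evE_551 (h : F4t r) : ev r 551 = EE r (-1, 0, 1, 0) := by
  have := triple_C h (x := 1015) (A := 1) (B := 285) (C := 551) (by decide +kernel)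
  rw [this, evE_1 h, evE_285 h, ← EE_add h, ← EE_neg h]
  rfl

theorem evE_15 (h : F4t r) : ev r 15 = EE r (1, 0, -1, 0) := by
  have := neg_of h (w := 551) (a := 551) (b := 15) (by decide +kernel)
  rw [this, evE_551 h, ← EE_neg h]
  rfl

theorem evE_456 (h : F4t r) : ev r 456 = EE r (-1, 1, 0, 0) := by
  have := triple_C h (x := 956) (A := 1) (B := 368) (C := 456) (by decide +kernel)
  rw [this, evE_1 h, evE_368 h, ← EE_add h, ← EE_neg h]
  rfl

theorem evE_33 (h : F4t r) : ev r 33 = EE r (1, -1, 0, 0) := by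
  have := neg_of h (w := 456) (a := 456) (b := 33) (by decide +kernel)
  rw [this, evE_456 h, ← EE_neg h]
  rfl

theorem evE_457 (h : F4t r) : ev r 457 = EE r (-1, 0, 1, 1) := by
  have := triple_C h (x := 955) (A := 5) (B := 285) (C := 457) (by decide +kernel)
  rw [this, evE_5 h, evE_285 h, ← EE_add h, ← EE_neg h]
  rfl

theorem evE_32 (h : F4t r) : ev r 32 = EE r (1, 0, -1, -1) := by
  have := neg_of h (w := 457) (a := 457) (b := 32) (by decide +kernel)
  rw [this, evE_457 h, ← EE_neg h]
  rfl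

theorem evE_0 (h : F4t r) : ev r 0 = EE r (2, -1, -1, -1) := by
  have := triple_A h (x := 1017) (A := 0) (B := 456) (C := 457) (by decide +kernel)
  rw [this, evE_456 h, evE_457 h, ← EE_add h, ← EE_neg h]
  rfl

theorem evE_824 (h : F4t r) : ev r 824 = EE r (-2, 1, 1, 1) := by
  have := neg_of h (w := 0) (a := 0) (b := 824) (by decide +kernel)
  rw [this, evE_0 h, ← EE_neg h]
  rfl

theorem evE_213 (h : F4t r) : ev r 213 = EE r (-1, 1, 1, 1) := by
  have := triple_B h (x := 1123) (A := 0) (B := 213) (C := 738) (by decide +kernel)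
  rw [this, evE_0 h, evE_738 h, ← EE_add h, ← EE_neg h]
  rfl

theorem evE_150 (h : F4t r) : ev r 150 = EE r (1, -1, -1, -1) := by
  have := neg_of h (w := 213) (a := 213) (b := 150) (by decide +kernel)
  rw [this, evE_213 h, ← EE_neg h]
  rfl

theorem evE_284 (h : F4t r) : ev r 284 = EE r (-1, 1, 1, 0) := by
  have := triple_B h (x := 1099) (A := 0) (B := 284) (C := 646) (by decide +kernel)
  rw [this, evE_0 h, evE_646 h, ← EE_add h, ← EE_neg h]
  rfl

theorem evE_99 (h : F4t r) : ev r 99 = EE r (1, -1, -1, 0) := by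
  have := neg_of h (w := 284) (a := 284) (b := 99) (by decide +kernel)
  rw [this, evE_284 h, ← EE_neg h]
  rfl

theorem evE_367 (h : F4t r) : ev r 367 = EE r (-1, 1, 0, 1) := by
  have := triple_B h (x := 1063) (A := 0) (B := 367) (C := 551) (by decide +kernel)
  rw [this, evE_0 h, evE_551 h, ← EE_add h, ← EE_neg h]
  rfl

theorem evE_60 (h : F4t r) : ev r 60 = EE r (1, -1, 0, -1) := by
  have := neg_of h (w := 367) (a := 367) (b := 60) (by decide +kernel)
  rw [this, evE_367 h, ← EE_neg h]
  rfl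


/-- the linear parts of the generators -/
def lin (i : ℕ) (v : Z4) : Z4 :=
  match i with
  | 1 => (-v.1, v.2.1 + v.1, v.2.2.1 + v.1, v.2.2.2 + v.1)
  | 2 => (v.1 + (v.1 + v.2.1 + v.2.2.1 + v.2.2.2), v.2.1 - (v.1 + v.2.1 + v.2.2.1 + v.2.2.2),
      v.2.2.1 - (v.1 + v.2.1 + v.2.2.1 + v.2.2.2), v.2.2.2 - (v.1 + v.2.1 + v.2.2.1 + v.2.2.2))
  | 3 => (v.1, v.2.1, v.2.2.1, -v.1 - v.2.2.2)
  | 4 => (v.1, v.2.1, v.2.2.2, v.2.2.1)
  | 5 => (v.1, v.2.2.1, v.2.1, v.2.2.2)
  | _ => v

/-- the units with their codes -/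
def U24 : List (ℕ × Z4) := [(0, (2, -1, -1, -1)), (1, (1, 0, 0, 0)), (5, (1, 0, 0, -1)), (15, (1, 0, -1, 0)), (32, (1, 0, -1, -1)), (33, (1, -1, 0, 0)), (58, (0, 1, 0, 0)), (60, (1, -1, 0, -1)), (97, (0, 0, 1, 0)), (99, (1, -1, -1, 0)), (148, (0, 0, 0, 1)), (150, (1, -1, -1, -1)), (211, (0, 0, 0, -1)), (213, (-1, 1, 1, 1)), (284, (-1, 1, 1, 0)), (285, (0, 0, -1, 0)), (367, (-1, 1, 0, 1)), (368, (0, -1, 0, 0)), (456, (-1, 1, 0, 0)), (457, (-1, 0, 1, 1)), (551, (-1, 0, 1, 0)), (646, (-1, 0, 0, 1)), (738, (-1, 0, 0, 0)), (824, (-2, 1, 1, 1))]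

theorem ev_U24 (h : F4t r) : ∀ p ∈ U24, ev r p.1 = EE r p.2 := by
  simp only [U24, List.forall_mem_cons]
  refine ⟨?_, ?_, ?_, ?_, ?_, ?_, ?_, ?_, ?_, ?_, ?_, ?_, ?_, ?_, ?_, ?_, ?_, ?_, ?_, ?_, ?_, ?_,
    ?_, ?_, by simp⟩
  · exact evE_0 h
  · exact evE_1 h
  · exact evE_5 h
  · exact evE_15 h
  · exact evE_32 h
  · exact evE_33 h
  · exact evE_58 h
  · exact evE_60 h
  · exact evE_97 h
  · exact evE_99 h
  · exact evE_148 h
  · exact evE_150 h
  · exact evE_211 h
  · exact evE_213 h
  · exact evE_284 h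
  · exact evE_285 h
  · exact evE_367 h
  · exact evE_368 h
  · exact evE_456 h
  · exact evE_457 h
  · exact evE_551 h
  · exact evE_646 h
  · exact evE_738 h
  · exact evE_824 h

/-- conjugation of the basis translations -/
theorem ev_conj (h : F4t r) {w g z : ℕ} {v : Z4}
    (hc : (Nat.ble (Nat.succ w) 1152 && (Nat.ble 2 g && (Nat.ble g 5 &&
      (Nat.beq (rw' (getT TW w g)) z && U24.elem (z, v))))) = true) :
    (r g)⁻¹ * ev r w * r g = EE r v := by
  simp only [Bool.and_eq_true, Nat.ble_eq, Nat.beq_eq, Nat.succ_le_iff,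
    List.elem_eq_mem, decide_eq_true_eq] at hc
  obtain ⟨hw, h2, h5, h3, h4⟩ := hc
  obtain ⟨h6, h7⟩ := om_edge h w hw g h2 h5
  have h8 := ev_U24 h _ h4
  simp only at h8
  rw [← h8, ← h3, ev_rw h _ h6, ev, ev, ← h7]
  group

theorem EE_lin (h : F4t r) {g : ℕ} (h2 : 2 ≤ g) (h5 : g ≤ 5) (v : Z4) :
    EE r v * r g = r g * EE r (lin g v) := by
  obtain ⟨v0, v1, v2, v3⟩ := v
  have key : ∀ b0 b1 b2 b3 : Z4, (r g)⁻¹ * ev r 1 * r g = EE r b0 →
      (r g)⁻¹ * ev r 58 * r g = EE r b1 → (r g)⁻¹ * ev r 97 * r g = EE r b2 →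
      (r g)⁻¹ * ev r 148 * r g = EE r b3 →
      EE r (v0, v1, v2, v3) * r g = r g * EE r (v0 • b0 + v1 • b1 + v2 • b2 + v3 • b3) := by
    intro b0 b1 b2 b3 e0 e1 e2 e3
    have c : ∀ (w : ℕ) (n : ℤ), ((r g)⁻¹ * ev r w * r g) ^ n = (r g)⁻¹ * ev r w ^ n * r g := by
      intro w n
      have := conj_zpow (i := n) (a := (r g)⁻¹) (b := ev r w)
      rwa [inv_inv] at this
    rw [EE_add h, EE_add h, EE_add h, EE_zsmul h, EE_zsmul h, EE_zsmul h, EE_zsmul h, ← e0, ← e1,
      ← e2, ← e3, c, c, c, c]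
    simp only [EE]
    group
  have hg : g = 2 ∨ g = 3 ∨ g = 4 ∨ g = 5 := by omega
  rcases hg with rfl | rfl | rfl | rfl
  · rw [key (lin 2 (1, 0, 0, 0)) (lin 2 (0, 1, 0, 0)) (lin 2 (0, 0, 1, 0)) (lin 2 (0, 0, 0, 1))
      (ev_conj h (z := rw' (getT TW 1 2)) (by decide +kernel))
      (ev_conj h (z := rw' (getT TW 58 2)) (by decide +kernel))
      (ev_conj h (z := rw' (getT TW 97 2)) (by decide +kernel))
      (ev_conj h (z := rw' (getT TW 148 2)) (by decide +kernel))]
    congr 2
    simp only [lin, Prod.smul_mk, Prod.mk_add_mk, smul_eq_mul, Prod.mk.injEq]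
    refine ⟨by ring, by ring, by ring, by ring⟩
  · rw [key (lin 3 (1, 0, 0, 0)) (lin 3 (0, 1, 0, 0)) (lin 3 (0, 0, 1, 0)) (lin 3 (0, 0, 0, 1))
      (ev_conj h (z := rw' (getT TW 1 3)) (by decide +kernel))
      (ev_conj h (z := rw' (getT TW 58 3)) (by decide +kernel))
      (ev_conj h (z := rw' (getT TW 97 3)) (by decide +kernel))
      (ev_conj h (z := rw' (getT TW 148 3)) (by decide +kernel))]
    congr 2
    simp only [lin, Prod.smul_mk, Prod.mk_add_mk, smul_eq_mul, Prod.mk.injEq]
    refine ⟨by ring, by ring, by ring, by ring⟩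
  · rw [key (lin 4 (1, 0, 0, 0)) (lin 4 (0, 1, 0, 0)) (lin 4 (0, 0, 1, 0)) (lin 4 (0, 0, 0, 1))
      (ev_conj h (z := rw' (getT TW 1 4)) (by decide +kernel))
      (ev_conj h (z := rw' (getT TW 58 4)) (by decide +kernel))
      (ev_conj h (z := rw' (getT TW 97 4)) (by decide +kernel))
      (ev_conj h (z := rw' (getT TW 148 4)) (by decide +kernel))]
    congr 2
    simp only [lin, Prod.smul_mk, Prod.mk_add_mk, smul_eq_mul, Prod.mk.injEq]
    refine ⟨by ring, by ring, by ring, by ring⟩
  · rw [key (lin 5 (1, 0, 0, 0)) (lin 5 (0, 1, 0, 0)) (lin 5 (0, 0, 1, 0)) (lin 5 (0, 0, 0, 1))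
      (ev_conj h (z := rw' (getT TW 1 5)) (by decide +kernel))
      (ev_conj h (z := rw' (getT TW 58 5)) (by decide +kernel))
      (ev_conj h (z := rw' (getT TW 97 5)) (by decide +kernel))
      (ev_conj h (z := rw' (getT TW 148 5)) (by decide +kernel))]
    congr 2
    simp only [lin, Prod.smul_mk, Prod.mk_add_mk, smul_eq_mul, Prod.mk.injEq]
    refine ⟨by ring, by ring, by ring, by ring⟩

/-- `r 1 = s1 E(1)` -/
theorem r1_eq (h : F4t r) : r 1 = s1 r * EE r (2, -1, -1, -1) := by
  rw [← evE_0 h, ev, om_zero', e1]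
  calc r 1 = (s1 r * s1 r) * r 1 := by rw [s1_sq h, one_mul]
    _ = _ := by group

end Pool.Agent.Lib.MP_c2d01e_co.Dce
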