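import Pool.Agent.Lib.MP_c2d01e_co.Dce.Inst

/-!
# Translations of `{3,3,4,3}`: consequences between the additional relations

Words in the letters `1, …, 5`: `word1 = ρ₁στσ` is a translation by a unit vector, `word2 = ρ₁στ`,
and `(ρ₁στ)²` is a translation by a vector of norm 2.
-/

set_option autoImplicit false

namespace Pool.Agent.Lib.MP_c2d01e_co.Dce

variable {G : Type*} [Group G] {r : ℕ → G}

/-- `ρ₁στσ` -/
def word1 : List ℕ := [1, 2, 3, 4, 3, 2, 5, 4, 3, 4, 5, 2, 3, 4, 3, 2]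

/-- `ρ₁στ` -/
def word2 : List ℕ := [1, 2, 3, 4, 3, 2, 5, 4, 3, 4, 5]

theorem lp_pow (l : List ℕ) (m : ℕ) : lp r (List.replicate m l).flatten = lp r l ^ m := by
  rw [lp, flatten_replicate_prod]
  rfl

theorem transl (h : F4t r) (l : List ℕ) (hl : ∀ i ∈ l, 1 ≤ i ∧ i ≤ 5) (v : Z4)
    (h2 : fl TW l 0 = 0) (h3 : l.foldl (fun v g => stp g v) (0 : Z4) = v) : lp r l = EE r v := by
  have h1 := prod_nf h l hl 0 (by norm_num) 0
  rw [h2, h3, om_zero', EE_zero, one_mul, one_mul, one_mul] at h1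
  exact h1

theorem w1_3 (h : F4t r) : lp r word1 ^ 3 = EE r (-6, 3, 3, 3) := by
  rw [← lp_pow]
  exact transl h _ (by decide) _ (by decide +kernel) (by decide +kernel)

theorem w1_4 (h : F4t r) : lp r word1 ^ 4 = EE r (-8, 4, 4, 4) := by
  rw [← lp_pow]
  exact transl h _ (by decide) _ (by decide +kernel) (by decide +kernel)

theorem w1_2 (h : F4t r) : lp r word1 ^ 2 = EE r (-4, 2, 2, 2) := by
  rw [← lp_pow]
  exact transl h _ (by decide) _ (by decide +kernel) (by decide +kernel)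

theorem w2_4 (h : F4t r) : lp r word2 ^ 4 = EE r (-4, 0, 2, 2) := by
  rw [← lp_pow]
  exact transl h _ (by decide) _ (by decide +kernel) (by decide +kernel)

theorem w2_6 (h : F4t r) : lp r word2 ^ 6 = EE r (-6, 0, 3, 3) := by
  rw [← lp_pow]
  exact transl h _ (by decide) _ (by decide +kernel) (by decide +kernel)

/-- `(3,0,0,0)` implies `(3,3,0,0)`. -/
theorem w1_3_w2_6 (h : F4t r) (h1 : lp r word1 ^ 3 = 1) : lp r word2 ^ 6 = 1 := by
  rw [w1_3 h] at h1
  have h2 : EE r (0, -3, 0, 0) = 1 := EE_orbit h h1 (w := 58) (by norm_num) (by decide +kernel)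
  rw [w2_6 h]
  have := EE_add h (-6, 3, 3, 3) (0, -3, 0, 0)
  rw [h1, h2, one_mul] at this
  exact this

/-- `(2,0,0,0)` implies `(2,2,0,0)`. -/
theorem w1_2_w2_4 (h : F4t r) (h1 : lp r word1 ^ 2 = 1) : lp r word2 ^ 4 = 1 := by
  rw [w1_2 h] at h1
  have h2 : EE r (0, -2, 0, 0) = 1 := EE_orbit h h1 (w := 58) (by norm_num) (by decide +kernel)
  rw [w2_4 h]
  have := EE_add h (-4, 2, 2, 2) (0, -2, 0, 0)
  rw [h1, h2, one_mul] at this
  exact this

/-- `(2,2,0,0)` implies `(4,0,0,0)`. -/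
theorem w2_4_w1_4 (h : F4t r) (h1 : lp r word2 ^ 4 = 1) : lp r word1 ^ 4 = 1 := by
  rw [w2_4 h] at h1
  have h2 : EE r (-4, 4, 2, 2) = 1 := EE_orbit h h1 (w := 90) (by norm_num) (by decide +kernel)
  rw [w1_4 h]
  have := EE_add h (-4, 0, 2, 2) (-4, 4, 2, 2)
  rw [h1, h2, one_mul] at this
  exact this

end Pool.Agent.Lib.MP_c2d01e_co.Dce
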