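import Pool.Agent.Lib.MP_c2d01e_co.Dce.Core

/-!
# Certificates of double coset enumerations: soundness
-/

set_option autoImplicit false

namespace Pool.Agent.Lib.MP_c2d01e_co.Dce

variable {D : Data} {G : Type*} [Group G]

/-- the meaning of the tables in a group `G` -/
structure Sem (D : Data) (G : Type*) [Group G] where
  s : G
  r : ℕ → G
  u1 : G
  om : ℕ → G
  e : ℕ → G
  c : G
  s_sq : s * s = 1
  r1_sq : r 1 * r 1 = 1
  s_comm : ∀ i, 2 ≤ i → i ≤ 5 → s * r i = r i * s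
  polyg : (s * r 1) ^ D.pol = 1
  pol_pos : 0 < D.pol
  nW_pos : 0 < D.nW
  nX_pos : 0 < D.nX
  om_zero : om 0 = 1
  e_zero : e 0 = 1
  om_mul : ∀ k, k < D.nW → ∀ i, 2 ≤ i → i ≤ 5 →
    getT D.TW k i < D.nW ∧ om k * r i = om (getT D.TW k i)
  om_one : ∀ k, k < D.nW → getT D.TW k 1 < D.nW ∧ om k * u1 = om (getT D.TW k 1)
  e_mul : ∀ x, x < D.nX → ∀ i, 2 ≤ i → i ≤ 5 →
    getT D.AX x i < D.nX ∧ e x * r i = r i * e (getT D.AX x i)
  e_one : ∀ x, x < D.nX → getT D.AX x 1 < D.nX ∧ e x * r 1 = u1 * e (getT D.AX x 1)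
  word_mem : ∀ k, k < D.nW → ∀ i ∈ wl 24 (word D k), 2 ≤ i ∧ i ≤ 5
  word_prod : ∀ k, k < D.nW → ((wl 24 (word D k)).map r).prod = om k
  inv_lt : ∀ k, k < D.nW → inv D k < D.nW
  inv_mul : ∀ k, k < D.nW → om k * om (inv D k) = 1
  add_lt : ∀ x y, x < D.nX → y < D.nX → D.add x y < D.nX
  e_add : ∀ x y, x < D.nX → y < D.nX → e x * e y = e (D.add x y)
  chk0 : ∀ k x, k < D.nW → x < D.nX → D.chk0 k x = true →
    (om k * e x) * c = c * (om k * e x)
  s_c : s * c * s = c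

namespace Sem

variable (S : Sem D G)

theorem fol_W (l : List ℕ) (hl : ∀ i ∈ l, 2 ≤ i ∧ i ≤ 5) (k : ℕ) (hk : k < D.nW) :
    l.foldl (fun k i => getT D.TW k i) k < D.nW ∧
      S.om k * (l.map S.r).prod = S.om (l.foldl (fun k i => getT D.TW k i) k) := by
  induction l generalizing k with
  | nil => simp [hk]
  | cons a l ih =>
    have ha := hl a (by simp)
    obtain ⟨h1, h2⟩ := S.om_mul k hk a ha.1 ha.2
    obtain ⟨h3, h4⟩ := ih (fun i hi => hl i (by simp [hi])) _ h1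
    refine ⟨h3, ?_⟩
    rw [List.map_cons, List.prod_cons, ← mul_assoc, h2]
    exact h4

theorem fol_X (l : List ℕ) (hl : ∀ i ∈ l, 2 ≤ i ∧ i ≤ 5) (x : ℕ) (hx : x < D.nX) :
    l.foldl (fun k i => getT D.AX k i) x < D.nX ∧
      S.e x * (l.map S.r).prod = (l.map S.r).prod * S.e (l.foldl (fun k i => getT D.AX k i) x) := by
  induction l generalizing x with
  | nil => simp [hx]
  | cons a l ih =>
    have ha := hl a (by simp)
    obtain ⟨h1, h2⟩ := S.e_mul x hx a ha.1 ha.2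
    obtain ⟨h3, h4⟩ := ih (fun i hi => hl i (by simp [hi])) _ h1
    refine ⟨h3, ?_⟩
    rw [List.map_cons, List.prod_cons, ← mul_assoc, h2, mul_assoc, h4, mul_assoc]
    rfl

theorem mulK_spec {k l : ℕ} (hk : k < D.nW) (hl : l < D.nW) :
    mulK D k l < D.nW ∧ S.om k * S.om l = S.om (mulK D k l) := by
  have h := S.fol_W _ (S.word_mem l hl) k hk
  rw [S.word_prod l hl] at h
  rw [mulK, fol_eq]
  exact h

theorem actX_spec {x l : ℕ} (hx : x < D.nX) (hl : l < D.nW) :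
    actX D x l < D.nX ∧ S.e x * S.om l = S.om l * S.e (actX D x l) := by
  have h := S.fol_X _ (S.word_mem l hl) x hx
  rw [S.word_prod l hl] at h
  rw [actX, fol_eq]
  exact h

/-- the point `(i, k, x)` -/
def V (d : ℕ → G) (i k x : ℕ) : G := (S.om k * S.e x)⁻¹ * d i * (S.om k * S.e x)

theorem s_inv : S.s⁻¹ = S.s := inv_eq_of_mul_eq_one_left S.s_sq

theorem r1_inv : (S.r 1)⁻¹ = S.r 1 := inv_eq_of_mul_eq_one_left S.r1_sq

theorem s_om {k : ℕ} (hk : k < D.nW) : S.s * S.om k = S.om k * S.s := by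
  rw [← S.word_prod k hk]
  have h := S.word_mem k hk
  generalize wl 24 (word D k) = l at h
  induction l with
  | nil => simp
  | cons a l ih =>
    have ha := h a (by simp)
    rw [List.map_cons, List.prod_cons, ← mul_assoc, S.s_comm a ha.1 ha.2, mul_assoc,
      ih (fun i hi => h i (by simp [hi])), mul_assoc]

variable {S} {d : ℕ → G}

theorem V_om {i k x l : ℕ} (hk : k < D.nW) (hx : x < D.nX) (hl : l < D.nW) :
    S.V d i (mulK D k l) (actX D x l) = (S.om l)⁻¹ * S.V d i k x * S.om l := by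
  rw [V, V, ← (S.mulK_spec hk hl).2, mul_assoc (S.om k) (S.om l), ← (S.actX_spec hx hl).2]
  group

theorem V_r1 {i k x : ℕ} (hk : k < D.nW) (hx : x < D.nX) :
    S.V d i (getT D.TW k 1) (getT D.AX x 1) = (S.r 1)⁻¹ * S.V d i k x * S.r 1 := by
  rw [V, V, ← (S.om_one k hk).2, mul_assoc (S.om k) S.u1, ← (S.e_one x hx).2]
  group

theorem om_inv {k : ℕ} (hk : k < D.nW) : S.om (inv D k) = (S.om k)⁻¹ :=
  (inv_eq_of_mul_eq_one_right (S.inv_mul k hk)).symm

/-- `y = x · k⁻¹` -/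
theorem y_spec {k x : ℕ} (hk : k < D.nW) (hx : x < D.nX) :
    S.e (actX D x (inv D k)) = S.om k * S.e x * (S.om k)⁻¹ := by
  have h := (S.actX_spec hx (S.inv_lt k hk)).2
  rw [om_inv hk] at h
  calc S.e (actX D x (inv D k)) = S.om k * ((S.om k)⁻¹ * S.e (actX D x (inv D k))) := by group
    _ = _ := by rw [← h]; group

theorem V_y {i k x : ℕ} (hk : k < D.nW) (hx : x < D.nX) :
    S.V d i k x = (S.om k)⁻¹ * S.V d i 0 (actX D x (inv D k)) * S.om k := by
  rw [V, V, S.om_zero, one_mul, y_spec hk hx]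
  group

theorem V_conj_s {i k x j l y : ℕ} (hk : k < D.nW)
    (h : S.s * S.V d i 0 x * S.s = S.V d j l y) :
    S.s * ((S.om k)⁻¹ * S.V d i 0 x * S.om k) * S.s = (S.om k)⁻¹ * S.V d j l y * S.om k := by
  have h1 : S.s * (S.om k)⁻¹ = (S.om k)⁻¹ * S.s := by
    rw [eq_inv_mul_iff_mul_eq, ← mul_assoc, ← S.s_om hk, mul_assoc, mul_inv_cancel, mul_one]
  rw [← h]
  calc S.s * ((S.om k)⁻¹ * S.V d i 0 x * S.om k) * S.s
      = (S.s * (S.om k)⁻¹) * S.V d i 0 x * (S.om k * S.s) := by group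
    _ = _ := by rw [h1, ← S.s_om hk]; group

variable (S) (d)

/-- meaning of the fact with content `c` -/
def HoldsC (c : ℕ) : Prop :=
  cY c < D.nX ∧ cK c < D.nW ∧ cX c < D.nX ∧
    (cT c = 1 → S.V d (cI c) (cK c) (cX c) = d (cI c)) ∧
    (cT c = 0 → S.s * S.V d (cI c) 0 (cY c) * S.s = S.V d (cJ c) (cK c) (cX c))

variable {S} {d}

theorem rd_eq (s : ℕ) (K : ℕ → ℕ → Bool) :
    rd s K = K (Nat.land s 1048575) (Nat.shiftRight s 20) := by
  rw [rd, frb_eq, frb_eq]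

theorem cnd_true {b t : Bool} : cnd b t = true ↔ b = true ∧ t = true := by
  rw [cnd_eq, Bool.and_eq_true]

theorem S_act {i k x y : ℕ} (hk : k < D.nW) (hx : x < D.nX) (hy : y < D.nX)
    (h : S.V d i k x = d i) :
    S.V d i 0 y = (S.om k)⁻¹ * S.V d i 0 (actX D (D.add x y) (inv D k)) * S.om k := by
  rw [← V_y hk (S.add_lt x y hx hy), V, V, S.om_zero, one_mul, ← S.e_add x y hx hy]
  conv_lhs => rw [← h]
  rw [V]
  group

theorem walk_sound {n i m : ℕ} (hH : ∀ m < n, HoldsC S d (con D m)) (hm : m < n) (len : ℕ) :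
    ∀ (s y : ℕ) (K : ℕ → ℕ → ℕ → ℕ → Bool), y < D.nX → walk D n i m len s y K = true →
      ∃ j k x s', k < D.nW ∧ x < D.nX ∧ S.s * S.V d i 0 y * S.s = S.V d j k x ∧
        K j k x s' = true := by
  induction len with
  | zero =>
    intro s y K hy h
    have h' : (frb (con D m) fun c => cnd (Nat.beq (cT c) 0) (cnd (Nat.beq (cI c) i)
      (cnd (Nat.beq (cY c) y) (frb (cJ c) fun j => frb (cK c) fun k => frb (cX c) fun x =>
        K j k x s)))) = true := h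
    simp only [frb_eq, cnd_true, Nat.beq_eq] at h'
    obtain ⟨h1, h2, h3, h4⟩ := h'
    obtain ⟨-, h5, h6, -, h7⟩ := hH m hm
    refine ⟨_, _, _, _, h5, h6, ?_, h4⟩
    rw [← h7 h1, h2, h3]
  | succ len ih =>
    intro s y K hy h
    have h' : (rd s fun t s1 => cnd (Nat.ble (Nat.succ t) n) (frb (con D t) fun c =>
      cnd (Nat.beq (cT c) 1) (cnd (Nat.beq (cI c) i) (frb (cK c) fun ks =>
        frb (actX D (D.add (cX c) y) (inv D ks)) fun y' => walk D n i m len s1 y' fun j k x s2 =>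
          frb (mulK D k ks) fun k' => frb (actX D x ks) fun x' => K j k' x' s2)))) = true := h
    simp only [rd_eq, frb_eq, cnd_true, Nat.beq_eq, Nat.ble_eq, Nat.succ_le_iff] at h'
    obtain ⟨h1, h2, h3, h4⟩ := h'
    obtain ⟨-, h5, h6, h7, -⟩ := hH _ h1
    have h8 := h7 h2
    rw [h3] at h8
    have hy' := (S.actX_spec (S.add_lt _ _ h6 hy) (S.inv_lt _ h5)).1
    obtain ⟨j, k, x, s', hk, hx, h9, h10⟩ := ih _ _ _ hy' h4
    refine ⟨_, _, _, _, (S.mulK_spec hk h5).1, (S.actX_spec hx h5).1, ?_, h10⟩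
    rw [V_om hk hx h5, S_act h5 h6 hy h8, V_conj_s h5 h9]

theorem look_sound {n i k x s : ℕ} {K : ℕ → ℕ → ℕ → ℕ → Bool}
    (hH : ∀ m < n, HoldsC S d (con D m)) (hk : k < D.nW) (hx : x < D.nX)
    (h : look D n i k x s K = true) :
    ∃ j k' x' s', k' < D.nW ∧ x' < D.nX ∧ S.s * S.V d i k x * S.s = S.V d j k' x' ∧
        K j k' x' s' = true := by
  simp only [look, rd_eq, frb_eq, cnd_true, Nat.ble_eq, Nat.succ_le_iff] at h
  obtain ⟨h1, h2⟩ := h
  obtain ⟨j, k', x', s', hk', hx', h3, h4⟩ := walk_sound hH h1 _ _ _ _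
    (S.actX_spec hx (S.inv_lt k hk)).1 h2
  refine ⟨_, _, _, _, (S.mulK_spec hk' hk).1, (S.actX_spec hx' hk).1, ?_, h4⟩
  rw [V_om hk' hx' hk, V_y hk hx, V_conj_s hk h3]

theorem poly_sound {n : ℕ} (hH : ∀ m < n, HoldsC S d (con D m)) (t : ℕ) :
    ∀ (i k x s : ℕ) (K : ℕ → ℕ → ℕ → ℕ → Bool), k < D.nW → x < D.nX →
      poly D n t i k x s K = true →
      ∃ j k' x' s', k' < D.nW ∧ x' < D.nX ∧
        S.V d j k' x' = ((S.s * S.r 1) ^ t)⁻¹ * S.V d i k x * (S.s * S.r 1) ^ t ∧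
        K j k' x' s' = true := by
  induction t with
  | zero =>
    intro i k x s K hk hx h
    exact ⟨i, k, x, s, hk, hx, by simp, h⟩
  | succ t ih =>
    intro i k x s K hk hx h
    have h' : (look D n i k x s fun j k' x' s' => frb (getT D.TW k' 1) fun k2 =>
      frb (getT D.AX x' 1) fun x2 => poly D n t j k2 x2 s' K) = true := h
    obtain ⟨j, k', x', s', hk', hx', h1, h2⟩ := look_sound hH hk hx h'
    simp only [frb_eq] at h2
    obtain ⟨j2, k2, x2, s2, hk2, hx2, h3, h4⟩ := ih _ _ _ _ _ (S.om_one _ hk').1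
      (S.e_one _ hx').1 h2
    refine ⟨j2, k2, x2, s2, hk2, hx2, ?_, h4⟩
    rw [h3, V_r1 hk' hx', ← h1, pow_succ']
    simp only [mul_inv_rev, s_inv, mul_assoc]

end Sem

end Pool.Agent.Lib.MP_c2d01e_co.Dce
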